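import Mathlib

/-!
# Tate resolutions on `ℙ^{n₁} × ℙ^{n₂}`: definitions

`K` is a field, `W₁ = K^(n₁+1)`, `W₂ = K^(n₂+1)`, `Vᵢ = Wᵢ*`.

* `CoxRing K n₁ n₂ = K[x_0, …, x_{n₁}, y_0, …, y_{n₂}] = Sym W₁ ⊗ Sym W₂`, bigraded by `CoxPiece`.
* `E = Λ(V₁ ⊕ V₂)` is `ExteriorAlgebra K V` where `V = V₁ ⊕ V₂` is any vector space with a basis
  `b` indexed by the coordinates (the basis dual to the coordinates); `vec b` are the vectors of the
  basis, as elements of `E`. The definitions below are stated for any `K`-algebra `E` with a family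
  `v` of elements; they are used for `E = ExteriorAlgebra K V` and `v = vec b`. The same holds for
  the Cox ring `S`, its variables `X` and its homogeneous components `piece`.
* Coherent sheaves on `ℙ^{n₁} × ℙ^{n₂}` are represented by finitely generated bigraded modules over
  the Cox ring (`BigradedModule` with `FG`); two of them represent isomorphic sheaves if and only if
  they are isomorphic in all sufficiently large degrees (`SheafIso`).
* `FreeComplex` is a locally finite complex of free modules `⨁ ω_E(a)`, given by matrices.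
-/

open CategoryTheory
open scoped TensorProduct

namespace Pool.Agent.MP_df5a96_ag.General

universe u

/-! ### Rings -/

/-- The index set of the coordinates `x_k`, `y_l` of `ℙ^{n₁} × ℙ^{n₂}`. -/
abbrev Idx (n₁ n₂ : ℕ) : Type := Fin (n₁ + 1) ⊕ Fin (n₂ + 1)

/-- The Cox ring `K[x_0, …, x_{n₁}, y_0, …, y_{n₂}]` of `ℙ^{n₁} × ℙ^{n₂}`. -/
abbrev CoxRing (K : Type u) [Field K] (n₁ n₂ : ℕ) : Type u := MvPolynomial (Idx n₁ n₂) K

/-- The bidegrees of the coordinates: `(1, 0)` for `x_k` and `(0, 1)` for `y_l`. -/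
def wt (n₁ n₂ : ℕ) : Idx n₁ n₂ → ℤ × ℤ := Sum.elim (fun _ => (1, 0)) (fun _ => (0, 1))

/-- The space `S_r` of bihomogeneous polynomials of bidegree `r`. -/
abbrev CoxPiece (K : Type u) [Field K] (n₁ n₂ : ℕ) (r : ℤ × ℤ) : Submodule K (CoxRing K n₁ n₂) :=
  MvPolynomial.weightedHomogeneousSubmodule K (wt n₁ n₂) r

/-- The basis vectors `e_k`, `f_l` of `V = V₁ ⊕ V₂`, as elements of `E = Λ V`. -/
noncomputable def vec {K : Type u} [Field K] {n₁ n₂ : ℕ} {V : Type u} [AddCommGroup V] [Module K V]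
    (b : Module.Basis (Idx n₁ n₂) K V) (k : Idx n₁ n₂) : ExteriorAlgebra K V :=
  ExteriorAlgebra.ι K (b k)

section

variable (K : Type u) [Field K] {n₁ n₂ : ℕ} {E : Type u} [Ring E] [Algebra K E] (v : Idx n₁ n₂ → E)

/-- `V₁`, as a subspace of `E`. -/
def V₁ : Submodule K E := Submodule.span K (Set.range fun k : Fin (n₁ + 1) => v (Sum.inl k))

/-- `V₂`, as a subspace of `E`. -/
def V₂ : Submodule K E := Submodule.span K (Set.range fun l : Fin (n₂ + 1) => v (Sum.inr l))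

/-- The component `Λ^p V₁ ⊗ Λ^q V₂` of `E`, which has degree `(-p, -q)`. -/
def extComp (p q : ℕ) : Submodule K E := V₁ K v ^ p * V₂ K v ^ q

/-- The homogeneous component `E_b` of `E` of degree `b ∈ ℤ²`. -/
def extPiece (b : ℤ × ℤ) : Submodule K E :=
  if b.1 ≤ 0 ∧ b.2 ≤ 0 then extComp K v (-b.1).toNat (-b.2).toNat else ⊥

/-- The subalgebra `E₁ = Λ V₁` of `E`. -/
def E₁ : Subalgebra K E := Algebra.adjoin K (V₁ K v : Set E)

/-- The subalgebra `E₂ = Λ V₂` of `E`. -/
def E₂ : Subalgebra K E := Algebra.adjoin K (V₂ K v : Set E)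

end

/-- The left action of `ξ ∈ E` on `Hom_K(E, N)`, `(ξ φ)(η) = φ(η ξ)`. It commutes with the right
action `(φ ξ)(η) = φ(ξ η)`. For `N = K` this is the identification of `Hom_E(ω_E, ω_E)` with `E`
(`ω_E = Hom_K(E, K)` as a right `E`-module); on `Hom_K(E, N) = Λ(W₁ ⊕ W₂) ⊗ N` it is the
contraction by `ξ`. -/
def act {K : Type u} [Field K] {E : Type u} [Ring E] [Algebra K E] {N : Type u} [AddCommGroup N]
    [Module K N] (ξ : E) : (E →ₗ[K] N) →ₗ[K] (E →ₗ[K] N) where
  toFun φ := φ ∘ₗ LinearMap.mulRight K ξ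
  map_add' _ _ := LinearMap.add_comp _ _ _
  map_smul' _ _ := LinearMap.smul_comp _ _ _

/-! ### Sheaves -/

/-- A bigraded module over the Cox ring: the graded pieces `M_{(i, j)}` together with the
multiplications by the coordinates. -/
structure BigradedModule (K : Type u) [Field K] (n₁ n₂ : ℕ) where
  /-- the graded pieces, vector spaces over `K` -/
  obj : ℤ → ℤ → ModuleCat.{u} K
  /-- multiplication by `x_k` -/
  x : ∀ (_ : Fin (n₁ + 1)) (i j : ℤ), obj i j ⟶ obj (i + 1) j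
  /-- multiplication by `y_l` -/
  y : ∀ (_ : Fin (n₂ + 1)) (i j : ℤ), obj i j ⟶ obj i (j + 1)
  /-- the multiplications by the `x_k` commute -/
  xx : ∀ k k' i j, x k i j ≫ x k' (i + 1) j = x k' i j ≫ x k (i + 1) j
  /-- the multiplications by the `y_l` commute -/
  yy : ∀ l l' i j, y l i j ≫ y l' i (j + 1) = y l' i j ≫ y l i (j + 1)
  /-- the multiplications by `x_k` and `y_l` commute -/
  xy : ∀ k l i j, x k i j ≫ y l (i + 1) j = y l i j ≫ x k i (j + 1)

/-- The bigraded module `M` is finitely generated: the pieces are finite dimensional and vanish in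
very negative degrees, and no new generators are needed in large degrees. The coherent sheaf on
`ℙ^{n₁} × ℙ^{n₂}` represented by `M` is `M~`. -/
def BigradedModule.FG {K : Type u} [Field K] {n₁ n₂ : ℕ} (M : BigradedModule K n₁ n₂) : Prop :=
  (∀ i j, Module.Finite K (M.obj i j)) ∧
    ∃ N : ℤ, (∀ i j, i < -N ∨ j < -N → Subsingleton (M.obj i j)) ∧
      (∀ i j, N ≤ i → ∀ m, ∃ z : Fin (n₁ + 1) → M.obj i j, ∑ k, (M.x k i j).hom (z k) = m) ∧
      ∀ i j, N ≤ j → ∀ m, ∃ z : Fin (n₂ + 1) → M.obj i j, ∑ l, (M.y l i j).hom (z l) = m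

/-- The sheaves represented by `M` and `M'` are isomorphic: there is an isomorphism of graded
modules between `M` and `M'` in all degrees `(i, j)` with `i, j ≥ N`, for some `N`. -/
def SheafIso {K : Type u} [Field K] {n₁ n₂ : ℕ} (M M' : BigradedModule K n₁ n₂) : Prop :=
  ∃ (N : ℤ) (f : ∀ i j, M.obj i j ⟶ M'.obj i j), ∀ i j, N ≤ i → N ≤ j →
    IsIso (f i j) ∧
      (∀ k, M.x k i j ≫ f (i + 1) j = f i j ≫ M'.x k i j) ∧
      ∀ l, M.y l i j ≫ f i (j + 1) = f i j ≫ M'.y l i j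

/-- A graded module over `K[x_0, …, x_n]`. -/
structure GradedModule (K : Type u) [Field K] (n : ℕ) where
  /-- the graded pieces, vector spaces over `K` -/
  obj : ℤ → ModuleCat.{u} K
  /-- multiplication by `x_k` -/
  x : ∀ (_ : Fin (n + 1)) (i : ℤ), obj i ⟶ obj (i + 1)
  /-- the multiplications by the `x_k` commute -/
  xx : ∀ k k' i, x k i ≫ x k' (i + 1) = x k' i ≫ x k (i + 1)

/-- The graded module `P` is finitely generated. The coherent sheaf on `ℙ^n` represented by `P`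
is `P~`. -/
def GradedModule.FG {K : Type u} [Field K] {n : ℕ} (P : GradedModule K n) : Prop :=
  (∀ i, Module.Finite K (P.obj i)) ∧
    ∃ N : ℤ, (∀ i, i < -N → Subsingleton (P.obj i)) ∧
      ∀ i, N ≤ i → ∀ m, ∃ z : Fin (n + 1) → P.obj i, ∑ k, (P.x k i).hom (z k) = m

section box

variable {K : Type u} [Field K] {n₁ n₂ : ℕ}

/-- The tensor product of two vector spaces. -/
def tens (P Q : ModuleCat.{u} K) : ModuleCat.{u} K := ModuleCat.of K (P ⊗[K] Q)

/-- The map `f ⊗ id`. -/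
def tensorR {P P' : ModuleCat.{u} K} (f : P ⟶ P') (Q : ModuleCat.{u} K) : tens P Q ⟶ tens P' Q :=
  ModuleCat.ofHom (LinearMap.rTensor Q f.hom)

/-- The map `id ⊗ f`. -/
def tensorL {P P' : ModuleCat.{u} K} (Q : ModuleCat.{u} K) (f : P ⟶ P') : tens Q P ⟶ tens Q P' :=
  ModuleCat.ofHom (LinearMap.lTensor Q f.hom)

theorem tensorR_comp {P P' P'' : ModuleCat.{u} K} (f : P ⟶ P') (g : P' ⟶ P'')
    (Q : ModuleCat.{u} K) : tensorR f Q ≫ tensorR g Q = tensorR (f ≫ g) Q :=
  ModuleCat.hom_ext (LinearMap.rTensor_comp Q g.hom f.hom).symm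

theorem tensorL_comp {P P' P'' : ModuleCat.{u} K} (f : P ⟶ P') (g : P' ⟶ P'')
    (Q : ModuleCat.{u} K) : tensorL Q f ≫ tensorL Q g = tensorL Q (f ≫ g) :=
  ModuleCat.hom_ext (LinearMap.lTensor_comp Q g.hom f.hom).symm

theorem tensorR_swap {P P₁ P₂ P' : ModuleCat.{u} K} {f : P ⟶ P₁} {g : P₁ ⟶ P'} {f' : P ⟶ P₂}
    {g' : P₂ ⟶ P'} (h : f ≫ g = f' ≫ g') (Q : ModuleCat.{u} K) :
    tensorR f Q ≫ tensorR g Q = tensorR f' Q ≫ tensorR g' Q := by
  rw [tensorR_comp, tensorR_comp, h]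

theorem tensorL_swap {P P₁ P₂ P' : ModuleCat.{u} K} {f : P ⟶ P₁} {g : P₁ ⟶ P'} {f' : P ⟶ P₂}
    {g' : P₂ ⟶ P'} (h : f ≫ g = f' ≫ g') (Q : ModuleCat.{u} K) :
    tensorL Q f ≫ tensorL Q g = tensorL Q f' ≫ tensorL Q g' := by
  rw [tensorL_comp, tensorL_comp, h]

theorem tensorR_tensorL {P P' Q Q' : ModuleCat.{u} K} (f : P ⟶ P') (g : Q ⟶ Q') :
    tensorR f Q ≫ tensorL P' g = tensorL P g ≫ tensorR f Q' :=
  ModuleCat.hom_ext ((LinearMap.lTensor_comp_rTensor P f.hom g.hom).trans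
    (LinearMap.rTensor_comp_lTensor P f.hom g.hom).symm)

/-- The bigraded module `⨁_{i, j} P_i ⊗ Q_j`, which represents the box product of the sheaves
`P~` and `Q~`. -/
def boxProduct (P : GradedModule K n₁) (Q : GradedModule K n₂) : BigradedModule K n₁ n₂ where
  obj i j := tens (P.obj i) (Q.obj j)
  x k i j := tensorR (P.x k i) (Q.obj j)
  y l i j := tensorL (P.obj i) (Q.x l j)
  xx k k' i j := tensorR_swap (P.xx k k' i) (Q.obj j)
  yy l l' i j := tensorL_swap (Q.xx l l' j) (P.obj i)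
  xy k l i j := tensorR_tensorL (P.x k i) (Q.x l j)

/-- The direct sum of finitely many vector spaces. -/
def sumObj {s : ℕ} (A : Fin s → ModuleCat.{u} K) : ModuleCat.{u} K := ModuleCat.of K (∀ t, A t)

/-- The direct sum of finitely many linear maps. -/
def sumMap {s : ℕ} {A B : Fin s → ModuleCat.{u} K} (f : ∀ t, A t ⟶ B t) : sumObj A ⟶ sumObj B :=
  ModuleCat.ofHom (LinearMap.pi fun t => (f t).hom ∘ₗ LinearMap.proj t)

theorem sumMap_swap {s : ℕ} {A B B' C : Fin s → ModuleCat.{u} K} {f : ∀ t, A t ⟶ B t}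
    {g : ∀ t, B t ⟶ C t} {f' : ∀ t, A t ⟶ B' t} {g' : ∀ t, B' t ⟶ C t}
    (h : ∀ t, f t ≫ g t = f' t ≫ g' t) : sumMap f ≫ sumMap g = sumMap f' ≫ sumMap g' := by
  have e1 : sumMap f ≫ sumMap g = sumMap fun t => f t ≫ g t := rfl
  have e2 : sumMap f' ≫ sumMap g' = sumMap fun t => f' t ≫ g' t := rfl
  rw [e1, e2, funext h]

/-- The direct sum of finitely many bigraded modules. -/
def directSum {s : ℕ} (M : Fin s → BigradedModule K n₁ n₂) : BigradedModule K n₁ n₂ where
  obj i j := sumObj fun t => (M t).obj i j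
  x k i j := sumMap fun t => (M t).x k i j
  y l i j := sumMap fun t => (M t).y l i j
  xx k k' i j := sumMap_swap fun t => (M t).xx k k' i j
  yy l l' i j := sumMap_swap fun t => (M t).yy l l' i j
  xy k l i j := sumMap_swap fun t => (M t).xy k l i j

/-- The sheaf represented by `F` is isomorphic to a (finite) direct sum of box products
`P_t ⊠ Q_t` of coherent sheaves on the two factors. -/
def IsSumOfBoxProducts (F : BigradedModule K n₁ n₂) : Prop :=
  ∃ (s : ℕ) (P : Fin s → GradedModule K n₁) (Q : Fin s → GradedModule K n₂),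
    (∀ t, (P t).FG) ∧ (∀ t, (Q t).FG) ∧ SheafIso F (directSum fun t => boxProduct (P t) (Q t))

end box

/-! ### Complexes -/

/-- A locally finite complex `T` of free modules `T^d = ⨁_i ω_E(deg i)`, `d ∈ ℤ`; the
differential is given by a matrix with entries in `Hom_E(ω_E(a), ω_E(b)) = E_{b - a}`. -/
structure FreeComplex (K : Type u) [Field K] {n₁ n₂ : ℕ} {E : Type u} [Ring E] [Algebra K E]
    (v : Idx n₁ n₂ → E) where
  /-- the index set of the summands of `T^d` -/
  I : ℤ → Type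
  /-- the twists: the summand `i` of `T^d` is `ω_E(deg d i)` -/
  deg : ∀ d, I d → ℤ × ℤ
  /-- every twist occurs finitely many times in `T^d` -/
  locallyFinite : ∀ d a, {i : I d | deg d i = a}.Finite
  /-- the matrix of the differential `T^d → T^(d+1)` -/
  D : ∀ d, I (d + 1) → I d → E
  /-- the differential is homogeneous -/
  D_mem : ∀ d j i, D d j i ∈ extPiece K v (deg (d + 1) j - deg d i)
  /-- the composition of two differentials vanishes -/
  D_comp : ∀ d (k : I (d + 1 + 1)) (i : I d), ∑ᶠ j : I (d + 1), D (d + 1) k j * D d j i = 0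

/-- The elements of degree `r` of the bigraded module of `Λ^{a₁} U₁ ⊠ Λ^{a₂} U₂`, where `U_k` is
the kernel of `W_k ⊗ 𝒪 → 𝒪(1)`: the elements of `Λ^{a₁} W₁ ⊗ Λ^{a₂} W₂ ⊗ S_r` (that is, linear
maps `E → S` which vanish on all bihomogeneous components of `E` except `E_{-a}`, with values in
`S_r`) annihilated by the contractions with the canonical sections `∑ x_k e_k` and `∑ y_l f_l` of
`V₁ ⊗ 𝒪(1, 0)` and `V₂ ⊗ 𝒪(0, 1)`. Here `S` is the Cox ring, `X` are its variables and `piece r`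
is `S_r`. -/
def IsTaut {K : Type u} [Field K] {n₁ n₂ : ℕ} {E : Type u} [Ring E] [Algebra K E] {S : Type u}
    [CommRing S] [Algebra K S] (v : Idx n₁ n₂ → E) (X : Idx n₁ n₂ → S)
    (piece : ℤ × ℤ → Submodule K S) (a r : ℤ × ℤ) (φ : E →ₗ[K] S) : Prop :=
  (∀ p q : ℕ, a = ((p : ℤ), (q : ℤ)) → ∀ ξ ∈ extComp K v p q, φ ξ ∈ piece r) ∧
    (∀ p q : ℕ, a ≠ ((p : ℤ), (q : ℤ)) → ∀ ξ ∈ extComp K v p q, φ ξ = 0) ∧
    (∀ ξ, ∑ k : Fin (n₁ + 1), X (Sum.inl k) * φ (ξ * v (Sum.inl k)) = 0) ∧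
    ∀ ξ, ∑ l : Fin (n₂ + 1), X (Sum.inr l) * φ (ξ * v (Sum.inr l)) = 0

namespace FreeComplex

variable {K : Type u} [Field K] {n₁ n₂ : ℕ} {E : Type u} [Ring E] [Algebra K E]
  {v : Idx n₁ n₂ → E} (T : FreeComplex K v)

/-- The differential of `T` on elements of `⨁_i Hom_K(E, N)`: for `N = K` this is the differential
of `T`, for `N = S` the Cox ring, it induces the differential of `U(T)`. -/
noncomputable def diff {N : Type u} [AddCommGroup N] [Module K N] (d : ℤ)
    (m : T.I d →₀ (E →ₗ[K] N)) (j : T.I (d + 1)) : E →ₗ[K] N :=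
  m.sum fun i φ => act (T.D d j i) φ

/-- The strand of `T` formed by the summands `ω_E(a)` with `A a` is exact. -/
def StrandExact (A : ℤ × ℤ → Prop) : Prop :=
  ∀ (d : ℤ) (m : T.I (d + 1) →₀ (E →ₗ[K] K)),
    (∀ i, ¬ A (T.deg (d + 1) i) → m i = 0) →
    (∀ k, A (T.deg (d + 1 + 1) k) → T.diff (d + 1) m k = 0) →
    ∃ m' : T.I d →₀ (E →ₗ[K] K), (∀ i, ¬ A (T.deg d i) → m' i = 0) ∧
      ∀ i, A (T.deg (d + 1) i) → T.diff d m' i = m i

/-- `T` is a Tate resolution: all its strands are exact, that is, `T` itself (`I = ∅`), and the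
complexes formed by the `ω_E(a)` with `a₁ = c` (`I = {1}`), or with `a₂ = c` (`I = {2}`). -/
def IsTate : Prop :=
  T.StrandExact (fun _ => True) ∧ (∀ c : ℤ, T.StrandExact fun a => a.1 = c) ∧
    ∀ c : ℤ, T.StrandExact fun a => a.2 = c

/-- `T` is minimal: the differential of `T ⊗_E K` is zero, that is, the entries of degree `0` of
the matrices are zero (the entries of nonzero degree are zero in `K`). -/
def IsMinimal : Prop := ∀ d j i, T.deg (d + 1) j = T.deg d i → T.D d j i = 0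

/-- A double-complex structure: a splitting of `T^d` as the direct sum over `p + q = d` of
`T^{p,q}` (the summand `i` of `T^d` lies in `T^{p,q}` for `(p, q) = typ d i`) such that the
differential is the sum of `∂_h : T^{p,q} → T^{p+1,q}` with entries in `E₁` and
`∂_v : T^{p,q} → T^{p,q+1}` with entries in `E₂`. -/
def HasDoubleComplexStructure : Prop :=
  ∃ typ : ∀ d, T.I d → ℤ × ℤ, (∀ d i, (typ d i).1 + (typ d i).2 = d) ∧
    ∀ d j i, (typ (d + 1) j = typ d i + (1, 0) ∧ T.D d j i ∈ E₁ K v) ∨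
      (typ (d + 1) j = typ d i + (0, 1) ∧ T.D d j i ∈ E₂ K v) ∨ T.D d j i = 0

section monad

variable {S : Type u} [CommRing S] [Algebra K S] (X : Idx n₁ n₂ → S)
  (piece : ℤ × ℤ → Submodule K S)

/-- The elements of degree `r` of the bigraded module of `⨁_i U(ω_E(deg i + c))`, `i` running
through the summands of `T^d`. This is the term of degree `d - |c|` of `U(T(c)[|c|])`. -/
def InTautTerm (c : ℤ × ℤ) (d : ℤ) (r : ℤ × ℤ) (m : T.I d →₀ (E →ₗ[K] S)) : Prop :=
  ∀ i, IsTaut v X piece (T.deg d i + c) r (m i)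

/-- `m` is a cocycle of degree `r` in the term of `U(T(c)[|c|])` coming from `T^d`. -/
def IsCocycle (c : ℤ × ℤ) (d : ℤ) (r : ℤ × ℤ) (m : T.I d →₀ (E →ₗ[K] S)) : Prop :=
  T.InTautTerm X piece c d r m ∧ T.diff d m = 0

/-- `m` is a coboundary of degree `r` in the term of `U(T(c)[|c|])` coming from `T^(d+1)`. -/
def IsCoboundary (c : ℤ × ℤ) (d : ℤ) (r : ℤ × ℤ) (m : T.I (d + 1) →₀ (E →ₗ[K] S)) : Prop :=
  ∃ m', T.InTautTerm X piece c d r m' ∧ T.diff d m' = m

/-- The linear maps `ψ` induce an isomorphism of the cohomology of `U(T(c)[|c|])` at the term coming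
from `T^(d+1)` with `F(c)`, in all degrees `r = s - c` with `s ≥ (N, N)`, and they are compatible
with the multiplications by the coordinates. -/
def IsCohomology (c : ℤ × ℤ) (d N : ℤ) (F : BigradedModule K n₁ n₂)
    (ψ : ∀ s₁ s₂ : ℤ, (T.I (d + 1) →₀ (E →ₗ[K] S)) → F.obj s₁ s₂) : Prop :=
  ∀ s₁ s₂ : ℤ, N ≤ s₁ → N ≤ s₂ → IsLinearMap K (ψ s₁ s₂) ∧
    (∀ z, ∃ m, T.IsCocycle X piece c (d + 1) (s₁ - c.1, s₂ - c.2) m ∧ ψ s₁ s₂ m = z) ∧
    ∀ m, T.IsCocycle X piece c (d + 1) (s₁ - c.1, s₂ - c.2) m →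
      (ψ s₁ s₂ m = 0 ↔ T.IsCoboundary X piece c d (s₁ - c.1, s₂ - c.2) m) ∧
      (∀ k, ψ (s₁ + 1) s₂ (X (Sum.inl k) • m) = (F.x k s₁ s₂).hom (ψ s₁ s₂ m)) ∧
      ∀ l, ψ s₁ (s₂ + 1) (X (Sum.inr l) • m) = (F.y l s₁ s₂).hom (ψ s₁ s₂ m)

/-- `U(T(c)[|c|])` is a (Beilinson) monad for the sheaf `F(c)`, `F` given by a bigraded module: its
cohomology sheaves vanish except in degree `0` (degree `|c|` of `T`), where the cohomology sheaf is
isomorphic to `F(c)`. In terms of bigraded modules: for all sufficiently large `r`, the complex is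
exact in degree `r` except at `T^{|c|}`, where its cohomology in degree `r` is identified with
`F_{r + c}`, compatibly with the multiplications by the coordinates. -/
def IsMonadFor (c : ℤ × ℤ) (F : BigradedModule K n₁ n₂) : Prop :=
  ∃ N : ℤ, ∀ d : ℤ,
    (d + 1 ≠ c.1 + c.2 → ∀ r₁ r₂ : ℤ, N ≤ r₁ → N ≤ r₂ →
      ∀ m, T.IsCocycle X piece c (d + 1) (r₁, r₂) m → T.IsCoboundary X piece c d (r₁, r₂) m) ∧
    (d + 1 = c.1 + c.2 → ∃ ψ, T.IsCohomology X piece c d N F ψ)

end monad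

/-- `T` is the Tate resolution `T(F)` of the sheaf `F`: the minimal Tate resolution such that
`U(T(c)[|c|])` is a Beilinson monad for `F(c)` for all `c ∈ ℤ²`. -/
def IsTateResolutionOf (F : BigradedModule K n₁ n₂) : Prop :=
  T.IsTate ∧ T.IsMinimal ∧ ∀ c : ℤ × ℤ,
    T.IsMonadFor (fun k => (MvPolynomial.X k : CoxRing K n₁ n₂)) (CoxPiece K n₁ n₂) c F

end FreeComplex

end Pool.Agent.MP_df5a96_ag.General
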