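import Pool.Agent.MP_df5a96_ag.General.Defs

/-!
# Lemmas on the exterior algebra `Λ(V₁ ⊕ V₂)` and its dual
-/

open MvPolynomial

namespace Pool.Agent.MP_df5a96_ag.General

universe u

variable {K : Type u} [Field K] {n₁ n₂ : ℕ} {V : Type u} [AddCommGroup V] [Module K V]
  {b : Module.Basis (Idx n₁ n₂) K V}

section act

variable {N : Type u} [AddCommGroup N] [Module K N]

@[simp] theorem act_apply (ξ η : ExteriorAlgebra K V) (φ : ExteriorAlgebra K V →ₗ[K] N) :
    act ξ φ η = φ (η * ξ) := rfl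

theorem act_mul (ξ η : ExteriorAlgebra K V) (φ : ExteriorAlgebra K V →ₗ[K] N) :
    act (ξ * η) φ = act ξ (act η φ) := by
  refine LinearMap.ext fun ζ => ?_
  simp [mul_assoc]

@[simp] theorem act_zero (φ : ExteriorAlgebra K V →ₗ[K] N) : act 0 φ = 0 := by
  refine LinearMap.ext fun ζ => ?_
  simp

theorem act_add (ξ η : ExteriorAlgebra K V) (φ : ExteriorAlgebra K V →ₗ[K] N) :
    act (ξ + η) φ = act ξ φ + act η φ := by
  refine LinearMap.ext fun ζ => ?_
  simp [mul_add]

theorem act_neg (ξ : ExteriorAlgebra K V) (φ : ExteriorAlgebra K V →ₗ[K] N) :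
    act (-ξ) φ = - act ξ φ := by
  refine LinearMap.ext fun ζ => ?_
  simp

/-- Multiplication by a linear form `w` on `V₁ ⊕ V₂`, as an operator on `Hom_K(E, N)`. -/
def hop (w : Module.Dual K V) :
    (ExteriorAlgebra K V →ₗ[K] N) →ₗ[K] (ExteriorAlgebra K V →ₗ[K] N) where
  toFun φ := φ ∘ₗ (CliffordAlgebra.contractRight.flip w)
  map_add' _ _ := LinearMap.add_comp _ _ _
  map_smul' _ _ := LinearMap.smul_comp _ _ _

theorem hop_apply (w : Module.Dual K V) (φ : ExteriorAlgebra K V →ₗ[K] N)
    (η : ExteriorAlgebra K V) : hop w φ η = φ (CliffordAlgebra.contractRight η w) := rfl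

theorem act_hop (w : Module.Dual K V) (v : V)
    (φ : ExteriorAlgebra K V →ₗ[K] N) :
    act (ExteriorAlgebra.ι K v) (hop w φ) + hop w (act (ExteriorAlgebra.ι K v) φ) = w v • φ := by
  refine LinearMap.ext fun η => ?_
  rw [LinearMap.add_apply, act_apply, hop_apply, hop_apply, act_apply, LinearMap.smul_apply,
    CliffordAlgebra.contractRight_mul_ι, map_sub, map_smul]
  abel

theorem act_vec_hop (k l : Idx n₁ n₂) (φ : ExteriorAlgebra K V →ₗ[K] N) :
    act (vec b l) (hop (b.coord k) φ) =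
      (if k = l then φ else 0) - hop (b.coord k) (act (vec b l) φ) := by
  have h := act_hop (b.coord k) (b l) φ
  rw [eq_sub_iff_add_eq]
  unfold vec
  rw [h, Module.Basis.coord_apply, Module.Basis.repr_self, Finsupp.single_apply]
  by_cases hkl : l = k
  · rw [if_pos hkl, if_pos hkl.symm, one_smul]
  · rw [if_neg hkl, if_neg (fun h => hkl h.symm), zero_smul]

end act

theorem vec_mul_self (k : Idx n₁ n₂) : vec b k * vec b k = 0 :=
  ExteriorAlgebra.ι_sq_zero _

theorem vec_mul_comm (k l : Idx n₁ n₂) :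
    vec b k * vec b l = - (vec b l * vec b k) := by
  rw [eq_neg_iff_add_eq_zero]
  exact ExteriorAlgebra.ι_add_mul_swap _ _

theorem vec_inl_mem (k : Fin (n₁ + 1)) : vec b (Sum.inl k) ∈ V₁ K (vec b) :=
  Submodule.subset_span ⟨k, rfl⟩

theorem vec_inr_mem (l : Fin (n₂ + 1)) : vec b (Sum.inr l) ∈ V₂ K (vec b) :=
  Submodule.subset_span ⟨l, rfl⟩

theorem V₁_mul_V₂ : V₁ K (vec b) * V₂ K (vec b) = V₂ K (vec b) * V₁ K (vec b) := by
  unfold V₁ V₂
  rw [Submodule.span_mul_span, Submodule.span_mul_span]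
  apply le_antisymm
  · rw [Submodule.span_le]
    rintro _ ⟨_, ⟨k, rfl⟩, _, ⟨l, rfl⟩, rfl⟩
    show vec b (Sum.inl k) * vec b (Sum.inr l) ∈ _
    rw [vec_mul_comm]
    exact neg_mem (Submodule.subset_span ⟨_, ⟨l, rfl⟩, _, ⟨k, rfl⟩, rfl⟩)
  · rw [Submodule.span_le]
    rintro _ ⟨_, ⟨k, rfl⟩, _, ⟨l, rfl⟩, rfl⟩
    show vec b (Sum.inr k) * vec b (Sum.inl l) ∈ _
    rw [vec_mul_comm]
    exact neg_mem (Submodule.subset_span ⟨_, ⟨l, rfl⟩, _, ⟨k, rfl⟩, rfl⟩)

theorem commute_V (p q : ℕ) : V₁ K (vec b) ^ p * V₂ K (vec b) ^ q = V₂ K (vec b) ^ q * V₁ K (vec b) ^ p :=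
  (Commute.pow_pow (show Commute (V₁ K (vec b)) (V₂ K (vec b)) from V₁_mul_V₂) p q)

theorem V₁_mul_extComp (p q : ℕ) : V₁ K (vec b) * extComp K (vec b) p q = extComp K (vec b) (p + 1) q := by
  unfold extComp
  rw [← mul_assoc, ← pow_succ']

theorem V₂_mul_extComp (p q : ℕ) : V₂ K (vec b) * extComp K (vec b) p q = extComp K (vec b) p (q + 1) := by
  unfold extComp
  rw [commute_V, ← mul_assoc, ← pow_succ', ← commute_V]

theorem extComp_mul_V₁ (p q : ℕ) : extComp K (vec b) p q * V₁ K (vec b) = extComp K (vec b) (p + 1) q := by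
  unfold extComp
  rw [commute_V, mul_assoc, ← pow_succ, ← commute_V]

theorem extComp_mul_V₂ (p q : ℕ) : extComp K (vec b) p q * V₂ K (vec b) = extComp K (vec b) p (q + 1) := by
  unfold extComp
  rw [mul_assoc, ← pow_succ]

theorem ι_mem (v : V) : ExteriorAlgebra.ι K v ∈ V₁ K (vec b) ⊔ V₂ K (vec b) := by
  rw [← b.sum_repr v, map_sum]
  refine sum_mem fun k _ => ?_
  rw [map_smul]
  refine Submodule.smul_mem _ _ ?_
  cases k with
  | inl k => exact Submodule.mem_sup_left (vec_inl_mem k)
  | inr l => exact Submodule.mem_sup_right (vec_inr_mem l)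

theorem iSup_extComp : ⨆ (p : ℕ) (q : ℕ), extComp K (vec b) p q = ⊤ := by
  set S := ⨆ (p : ℕ) (q : ℕ), extComp K (vec b) p q with hS
  have hle : ∀ p q, extComp K (vec b) p q ≤ S := fun p q =>
    le_iSup_of_le p (le_iSup_of_le q le_rfl)
  have h1 : V₁ K (vec b) * S ≤ S := by
    rw [hS]
    simp only [Submodule.mul_iSup, V₁_mul_extComp]
    exact iSup_le fun p => iSup_le fun q => hle _ _
  have h2 : V₂ K (vec b) * S ≤ S := by
    rw [hS]
    simp only [Submodule.mul_iSup, V₂_mul_extComp]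
    exact iSup_le fun p => iSup_le fun q => hle _ _
  have key : ∀ ξ : ExteriorAlgebra K V, ∀ η ∈ S, ξ * η ∈ S := by
    intro ξ
    induction ξ using ExteriorAlgebra.induction with
    | algebraMap r =>
      intro η hη
      rw [← Algebra.smul_def]
      exact S.smul_mem r hη
    | ι v =>
      intro η hη
      obtain ⟨a, ha, b, hb, hab⟩ := Submodule.mem_sup.mp (ι_mem (b := b) v)
      rw [← hab, add_mul]
      exact add_mem (h1 (Submodule.mul_mem_mul ha hη)) (h2 (Submodule.mul_mem_mul hb hη))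
    | mul a b ha hb =>
      intro η hη
      rw [mul_assoc]
      exact ha _ (hb _ hη)
    | add a b ha hb =>
      intro η hη
      rw [add_mul]
      exact add_mem (ha _ hη) (hb _ hη)
  rw [eq_top_iff]
  intro ξ _
  have h0 : (1 : ExteriorAlgebra K V) ∈ S := by
    apply hle 0 0
    unfold extComp
    rw [pow_zero, pow_zero, one_mul]
    exact Submodule.one_le.mp le_rfl
  have := key ξ 1 h0
  rwa [mul_one] at this

variable (b) in
theorem ext_comp {N : Type u} [AddCommGroup N] [Module K N] {φ ψ : ExteriorAlgebra K V →ₗ[K] N}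
    (h : ∀ p q : ℕ, ∀ ξ ∈ extComp K (vec b) p q, φ ξ = ψ ξ) : φ = ψ := by
  have h1 : ⨆ (p : ℕ) (q : ℕ), extComp K (vec b) p q ≤ LinearMap.eqLocus φ ψ :=
    iSup_le fun p => iSup_le fun q => h p q
  rw [iSup_extComp] at h1
  exact LinearMap.ext fun ξ => h1 (Submodule.mem_top (x := ξ))

/-! ### Contraction -/

theorem contract_V₁ (k : Fin (n₁ + 1)) (p : ℕ) :
    (∀ ξ ∈ V₂ K (vec b) ^ p, CliffordAlgebra.contractRight ξ (b.coord (Sum.inl k)) = 0) := by
  induction p with
  | zero =>
    intro ξ hξ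
    rw [pow_zero, Submodule.mem_one] at hξ
    obtain ⟨r, rfl⟩ := hξ
    exact CliffordAlgebra.contractRight_algebraMap (Q := (0 : QuadraticForm K V)) _ _
  | succ p ih =>
    intro ξ hξ
    rw [pow_succ] at hξ
    induction hξ using Submodule.mul_induction_on' with
    | mem_mul_mem a ha b hb =>
      induction hb using Submodule.span_induction with
      | mem b hb =>
        obtain ⟨l, rfl⟩ := hb
        show CliffordAlgebra.contractRight (a * ExteriorAlgebra.ι K _) _ = 0
        rw [CliffordAlgebra.contractRight_mul_ι, ih a ha]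
        simp
      | zero => simp
      | add x y hx hy h1 h2 => rw [mul_add, map_add, LinearMap.add_apply, h1, h2, add_zero]
      | smul c x hx h => rw [mul_smul_comm, map_smul, LinearMap.smul_apply, h, smul_zero]
    | add x hx y hy h1 h2 => rw [map_add, LinearMap.add_apply, h1, h2, add_zero]

theorem contract_V₂ (l : Fin (n₂ + 1)) (p : ℕ) :
    (∀ ξ ∈ V₁ K (vec b) ^ p, CliffordAlgebra.contractRight ξ (b.coord (Sum.inr l)) = 0) := by
  induction p with
  | zero =>
    intro ξ hξ
    rw [pow_zero, Submodule.mem_one] at hξ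
    obtain ⟨r, rfl⟩ := hξ
    exact CliffordAlgebra.contractRight_algebraMap (Q := (0 : QuadraticForm K V)) _ _
  | succ p ih =>
    intro ξ hξ
    rw [pow_succ] at hξ
    induction hξ using Submodule.mul_induction_on' with
    | mem_mul_mem a ha b hb =>
      induction hb using Submodule.span_induction with
      | mem b hb =>
        obtain ⟨l, rfl⟩ := hb
        show CliffordAlgebra.contractRight (a * ExteriorAlgebra.ι K _) _ = 0
        rw [CliffordAlgebra.contractRight_mul_ι, ih a ha]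
        simp
      | zero => simp
      | add x y hx hy h1 h2 => rw [mul_add, map_add, LinearMap.add_apply, h1, h2, add_zero]
      | smul c x hx h => rw [mul_smul_comm, map_smul, LinearMap.smul_apply, h, smul_zero]
    | add x hx y hy h1 h2 => rw [map_add, LinearMap.add_apply, h1, h2, add_zero]

/-- If `A` is a subspace of `E` and `ξ ∈ A * V`, then the contraction of `ξ` lies in any subspace
`B` that contains `A` and `A' * V` where `A'` contains the contractions of elements of `A`. -/
theorem contract_mul (w : Module.Dual K V) (s : Set V)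
    (A B : Submodule K (ExteriorAlgebra K V))
    (hA : ∀ a ∈ A, ∀ v ∈ s, w v • a - CliffordAlgebra.contractRight a w * ExteriorAlgebra.ι K v ∈ B)
    (ξ : ExteriorAlgebra K V)
    (hξ : ξ ∈ A * Submodule.span K ((fun v => ExteriorAlgebra.ι K v) '' s)) :
    CliffordAlgebra.contractRight ξ w ∈ B := by
  induction hξ using Submodule.mul_induction_on' with
  | mem_mul_mem a ha b hb =>
    induction hb using Submodule.span_induction with
    | mem b hb =>
      obtain ⟨v, hv, rfl⟩ := hb
      show CliffordAlgebra.contractRight (a * ExteriorAlgebra.ι K _) _ ∈ B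
      rw [CliffordAlgebra.contractRight_mul_ι]
      exact hA a ha v hv
    | zero => simp
    | add x y hx hy h1 h2 =>
      rw [mul_add, map_add, LinearMap.add_apply]
      exact add_mem h1 h2
    | smul c x hx h =>
      rw [mul_smul_comm, map_smul, LinearMap.smul_apply]
      exact B.smul_mem c h
  | add x hx y hy h1 h2 =>
    rw [map_add, LinearMap.add_apply]
    exact add_mem h1 h2

theorem V₁_eq : V₁ K (vec b) = Submodule.span K ((fun v => ExteriorAlgebra.ι K v) ''
    (Set.range fun k : Fin (n₁ + 1) => b (Sum.inl k))) := by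
  unfold V₁ vec
  rw [← Set.range_comp]
  rfl

theorem V₂_eq : V₂ K (vec b) = Submodule.span K ((fun v => ExteriorAlgebra.ι K v) ''
    (Set.range fun k : Fin (n₂ + 1) => b (Sum.inr k))) := by
  unfold V₂ vec
  rw [← Set.range_comp]
  rfl

theorem contract_inl (k : Fin (n₁ + 1)) (q : ℕ) : ∀ p : ℕ, ∀ ξ ∈ extComp K (vec b) (p + 1) q,
    CliffordAlgebra.contractRight ξ (b.coord (Sum.inl k)) ∈ extComp K (vec b) p q := by
  induction q with
  | zero =>
    intro p
    induction p with
    | zero =>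
      intro ξ hξ
      rw [← extComp_mul_V₁, V₁_eq] at hξ
      refine contract_mul _ _ _ _ ?_ ξ hξ
      rintro a ha _ ⟨k', rfl⟩
      have ha' := ha
      unfold extComp at ha'
      rw [pow_zero, pow_zero, one_mul, Submodule.mem_one] at ha'
      obtain ⟨r, rfl⟩ := ha'
      rw [CliffordAlgebra.contractRight_algebraMap, zero_mul, sub_zero]
      exact Submodule.smul_mem _ _ ha
    | succ p ih =>
      intro ξ hξ
      rw [← extComp_mul_V₁, V₁_eq] at hξ
      refine contract_mul _ _ _ _ ?_ ξ hξ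
      rintro a ha _ ⟨k', rfl⟩
      refine sub_mem (Submodule.smul_mem _ _ ha) ?_
      rw [← extComp_mul_V₁]
      exact Submodule.mul_mem_mul (ih a ha) (vec_inl_mem k')
  | succ q ih =>
    intro p ξ hξ
    rw [← extComp_mul_V₂, V₂_eq] at hξ
    refine contract_mul _ _ _ _ ?_ ξ hξ
    rintro a ha _ ⟨l, rfl⟩
    have h0 : b.coord (Sum.inl k) (b (Sum.inr l)) = 0 := by
      simp
    rw [h0, zero_smul, zero_sub, ← extComp_mul_V₂]
    exact neg_mem (Submodule.mul_mem_mul (ih p a ha) (vec_inr_mem l))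

theorem contract_inl_zero (k : Fin (n₁ + 1)) (q : ℕ) : ∀ ξ ∈ extComp K (vec b) 0 q,
    CliffordAlgebra.contractRight ξ (b.coord (Sum.inl k)) = 0 := by
  intro ξ hξ
  unfold extComp at hξ
  rw [pow_zero, one_mul] at hξ
  exact contract_V₁ k q ξ hξ

theorem contract_inr_zero (l : Fin (n₂ + 1)) (p : ℕ) : ∀ ξ ∈ extComp K (vec b) p 0,
    CliffordAlgebra.contractRight ξ (b.coord (Sum.inr l)) = 0 := by
  intro ξ hξ
  unfold extComp at hξ
  rw [pow_zero, mul_one] at hξ
  exact contract_V₂ l p ξ hξ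

theorem contract_inr (l : Fin (n₂ + 1)) (p : ℕ) : ∀ q : ℕ, ∀ ξ ∈ extComp K (vec b) p (q + 1),
    CliffordAlgebra.contractRight ξ (b.coord (Sum.inr l)) ∈ extComp K (vec b) p q := by
  intro q
  induction q with
  | zero =>
    intro ξ hξ
    rw [← extComp_mul_V₂, V₂_eq] at hξ
    refine contract_mul _ _ _ _ ?_ ξ hξ
    rintro a ha _ ⟨l', rfl⟩
    rw [contract_inr_zero l p a ha, zero_mul, sub_zero]
    exact Submodule.smul_mem _ _ ha
  | succ q ih =>
    intro ξ hξ
    rw [← extComp_mul_V₂, V₂_eq] at hξ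
    refine contract_mul _ _ _ _ ?_ ξ hξ
    rintro a ha _ ⟨l', rfl⟩
    refine sub_mem (Submodule.smul_mem _ _ ha) ?_
    rw [← extComp_mul_V₂]
    exact Submodule.mul_mem_mul (ih a ha) (vec_inr_mem l')

end Pool.Agent.MP_df5a96_ag.General
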