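import Pool.Agent.MP_df5a96_ag.General.Defs

/-!
# Lemmas on bihomogeneous polynomials
-/

open MvPolynomial

namespace Pool.Agent.MP_df5a96_ag.General

universe u

section general

variable {K : Type u} [Field K] {n₁ n₂ : ℕ}

theorem syzygy {i j : Idx n₁ n₂} (hij : i ≠ j) {A B : CoxRing K n₁ n₂}
    (h : X i * A + X j * B = 0) : ∃ g, A = X j * g ∧ B = -(X i * g) := by
  have hdvd : (X j : CoxRing K n₁ n₂) ∣ A := by
    rw [MvPolynomial.X_dvd_iff_modMonomial_eq_zero]
    ext m
    rw [coeff_zero]
    by_cases hm : Finsupp.single j 1 ≤ m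
    · exact coeff_modMonomial_of_le _ hm
    · rw [coeff_modMonomial_of_not_le _ hm]
      have hm' : m j = 0 := by
        by_contra hne
        apply hm
        rw [Finsupp.single_le_iff]
        omega
      have h1 := congrArg (coeff (m + Finsupp.single i 1)) h
      rw [coeff_add, coeff_zero] at h1
      rw [add_comm m, coeff_X_mul] at h1
      rw [coeff_X_mul', if_neg, add_zero] at h1
      · exact h1
      · rw [Finsupp.mem_support_iff, not_not, Finsupp.add_apply, Finsupp.single_apply, if_neg hij,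
          hm', add_zero]
  obtain ⟨g, rfl⟩ := hdvd
  refine ⟨g, rfl, ?_⟩
  have h2 : (X j : CoxRing K n₁ n₂) * (B + X i * g) = 0 := by
    rw [← h]; ring
  rcases mul_eq_zero.mp h2 with h3 | h3
  · exact absurd h3 (X_ne_zero j)
  · exact eq_neg_of_add_eq_zero_left h3

theorem mem_of_X_mul {j : Idx n₁ n₂} {g : CoxRing K n₁ n₂} {r : ℤ × ℤ}
    (h : X j * g ∈ CoxPiece K n₁ n₂ r) : g ∈ CoxPiece K n₁ n₂ (r - wt n₁ n₂ j) := by
  rw [mem_weightedHomogeneousSubmodule] at h ⊢
  intro m hm
  have h1 : coeff (Finsupp.single j 1 + m) (X j * g) ≠ 0 := by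
    rwa [coeff_X_mul]
  have h2 := h h1
  rw [map_add, Finsupp.weight_single] at h2
  rw [← h2, one_smul]
  abel

theorem X_mul_mem {j : Idx n₁ n₂} {g : CoxRing K n₁ n₂} {r : ℤ × ℤ}
    (h : g ∈ CoxPiece K n₁ n₂ r) : X j * g ∈ CoxPiece K n₁ n₂ (wt n₁ n₂ j + r) := by
  rw [mem_weightedHomogeneousSubmodule] at h ⊢
  exact (isWeightedHomogeneous_X K (wt n₁ n₂) j).mul h

end general

variable {K : Type u} [Field K]

/-- The Cox ring of `ℙ¹ × ℙ¹`. -/
abbrev S (K : Type u) [Field K] := CoxRing K 1 1

/-- first coordinate on the first factor -/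
noncomputable abbrev x0 : S K := X (Sum.inl 0)
/-- second coordinate on the first factor -/
noncomputable abbrev x1 : S K := X (Sum.inl 1)
/-- first coordinate on the second factor -/
noncomputable abbrev y0 : S K := X (Sum.inr 0)
/-- second coordinate on the second factor -/
noncomputable abbrev y1 : S K := X (Sum.inr 1)

/-- Exactness of the Koszul complex of `x₁ - ε x₀` and `y₁ - ε y₀` over `S[ε]` in the middle. -/
theorem koszul_middle {a0 a1 b0 b1 : S K} (h0 : x1 * a0 + y1 * b0 = 0)
    (h1 : (x1 * a1 - x0 * a0) + (y1 * b1 - y0 * b0) = 0) :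
    ∃ g0 g1 : S K, a0 = y1 * g0 ∧ a1 = y1 * g1 - y0 * g0 ∧ b0 = -(x1 * g0) ∧
      b1 = -(x1 * g1 - x0 * g0) := by
  obtain ⟨g0, ha0, hb0⟩ := syzygy (by decide) h0
  have h2 : x1 * (a1 + y0 * g0) + y1 * (b1 - x0 * g0) = 0 := by
    rw [← h1, ha0, hb0]; ring
  obtain ⟨g1, ha1, hb1⟩ := syzygy (by decide) h2
  refine ⟨g0, g1, ha0, ?_, hb0, ?_⟩
  · rw [← ha1]; ring
  · have : b1 = -(x1 * g1) + x0 * g0 := by rw [← hb1]; ring
    rw [this]; ring

/-- The boundaries in degree `r` of the Koszul complex. -/
def bdry (K : Type u) [Field K] (r : ℤ × ℤ) : Submodule K (S K × S K) where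
  carrier := {G | ∃ a0 ∈ CoxPiece K 1 1 (r - (1, 0)), ∃ a1 ∈ CoxPiece K 1 1 (r - (1, 0)),
    ∃ b0 ∈ CoxPiece K 1 1 (r - (0, 1)), ∃ b1 ∈ CoxPiece K 1 1 (r - (0, 1)),
    G.1 = x1 * a0 + y1 * b0 ∧ G.2 = (x1 * a1 - x0 * a0) + (y1 * b1 - y0 * b0)}
  add_mem' := by
    rintro G G' ⟨a0, ha0, a1, ha1, b0, hb0, b1, hb1, h1, h2⟩
      ⟨a0', ha0', a1', ha1', b0', hb0', b1', hb1', h1', h2'⟩
    refine ⟨a0 + a0', add_mem ha0 ha0', a1 + a1', add_mem ha1 ha1', b0 + b0', add_mem hb0 hb0',
      b1 + b1', add_mem hb1 hb1', ?_, ?_⟩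
    · rw [Prod.fst_add, h1, h1']; ring
    · rw [Prod.snd_add, h2, h2']; ring
  zero_mem' := ⟨0, zero_mem _, 0, zero_mem _, 0, zero_mem _, 0, zero_mem _, by simp, by simp⟩
  smul_mem' := by
    rintro c G ⟨a0, ha0, a1, ha1, b0, hb0, b1, hb1, h1, h2⟩
    refine ⟨c • a0, Submodule.smul_mem _ _ ha0, c • a1, Submodule.smul_mem _ _ ha1, c • b0,
      Submodule.smul_mem _ _ hb0, c • b1, Submodule.smul_mem _ _ hb1, ?_, ?_⟩
    · rw [Prod.smul_fst, h1, smul_add]; simp only [mul_smul_comm]
    · rw [Prod.smul_snd, h2, smul_add, smul_sub, smul_sub]; simp only [mul_smul_comm]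

/-- The monomial `x₀^{r₁} y₀^{r₂}`. -/
noncomputable def base (K : Type u) [Field K] (r : ℤ × ℤ) : S K :=
  x0 ^ r.1.toNat * y0 ^ r.2.toNat

theorem base_mem {r : ℤ × ℤ} (h1 : 0 ≤ r.1) (h2 : 0 ≤ r.2) : base K r ∈ CoxPiece K 1 1 r := by
  rw [mem_weightedHomogeneousSubmodule]
  have e1 := (isWeightedHomogeneous_X K (wt 1 1) (Sum.inl 0)).pow r.1.toNat
  have e2 := (isWeightedHomogeneous_X K (wt 1 1) (Sum.inr 0)).pow r.2.toNat
  have e3 := e1.mul e2
  have : r.1.toNat • wt 1 1 (Sum.inl 0) + r.2.toNat • wt 1 1 (Sum.inr 0) = r := by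
    unfold wt
    ext
    · simp [h1]
    · simp [h2]
  rw [this] at e3
  exact e3

/-- The space spanned by the boundaries and the base monomial. -/
noncomputable def bdry' (K : Type u) [Field K] (r : ℤ × ℤ) : Submodule K (S K × S K) :=
  bdry K r ⊔ (Submodule.span K {(base K r, 0), (0, base K r)})

theorem weight_fin (m : Idx 1 1 →₀ ℕ) : Finsupp.weight (wt 1 1) m =
    ((m (Sum.inl 0) + m (Sum.inl 1) : ℤ), (m (Sum.inr 0) + m (Sum.inr 1) : ℤ)) := by
  rw [Finsupp.weight_apply, Finsupp.sum_fintype _ _ (by simp)]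
  have hs : ∀ f : Fin (1 + 1) → ℤ × ℤ, ∑ x, f x = f 0 + f 1 := fun f => Fin.sum_univ_two f
  rw [Fintype.sum_sum_type, hs, hs]
  simp [wt, Prod.smul_mk, -nsmul_eq_mul]

/-- second-component monomials -/
theorem snd_mem {r : ℤ × ℤ} (m : Idx 1 1 →₀ ℕ) (hm : Finsupp.weight (wt 1 1) m = r) (c : K) :
    ((0, monomial m c) : S K × S K) ∈ bdry' K r ∧
      (m (Sum.inl 1) ≠ 0 ∨ m (Sum.inr 1) ≠ 0 → ((0, monomial m c) : S K × S K) ∈ bdry K r) := by
  have key : m (Sum.inl 1) ≠ 0 ∨ m (Sum.inr 1) ≠ 0 →
      ((0, monomial m c) : S K × S K) ∈ bdry K r := by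
    rintro (h | h)
    · have e : monomial m c = x1 * monomial (m - Finsupp.single (Sum.inl 1) 1) c := by
        rw [x1, X, monomial_mul, one_mul, add_tsub_cancel_of_le]
        rw [Finsupp.single_le_iff]; omega
      refine ⟨0, zero_mem _, monomial (m - Finsupp.single (Sum.inl 1) 1) c, ?_, 0, zero_mem _, 0,
        zero_mem _, by simp, ?_⟩
      · have : x1 * monomial (m - Finsupp.single (Sum.inl 1) 1) c ∈ CoxPiece K 1 1 r := by
          rw [← e, mem_weightedHomogeneousSubmodule]
          exact isWeightedHomogeneous_monomial _ _ _ hm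
        exact mem_of_X_mul this
      · simp [e]
    · have e : monomial m c = y1 * monomial (m - Finsupp.single (Sum.inr 1) 1) c := by
        rw [y1, X, monomial_mul, one_mul, add_tsub_cancel_of_le]
        rw [Finsupp.single_le_iff]; omega
      refine ⟨0, zero_mem _, 0, zero_mem _, 0, zero_mem _,
        monomial (m - Finsupp.single (Sum.inr 1) 1) c, ?_, by simp, ?_⟩
      · have : y1 * monomial (m - Finsupp.single (Sum.inr 1) 1) c ∈ CoxPiece K 1 1 r := by
          rw [← e, mem_weightedHomogeneousSubmodule]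
          exact isWeightedHomogeneous_monomial _ _ _ hm
        exact mem_of_X_mul this
      · simp [e]
  refine ⟨?_, key⟩
  by_cases h : m (Sum.inl 1) ≠ 0 ∨ m (Sum.inr 1) ≠ 0
  · exact Submodule.mem_sup_left (key h)
  · push Not at h
    have hb : monomial m c = c • base K r := by
      have e1 : r.1.toNat = m (Sum.inl 0) := by
        rw [← hm, weight_fin, h.1]; simp
      have e2 : r.2.toNat = m (Sum.inr 0) := by
        rw [← hm, weight_fin, h.2]; simp
      have e3 : m = Finsupp.single (Sum.inl 0) (m (Sum.inl 0)) +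
          Finsupp.single (Sum.inr 0) (m (Sum.inr 0)) := by
        ext k
        rcases k with k | k <;> fin_cases k <;> simp [h.1, h.2]
      unfold base
      rw [e1, e2, x0, y0, X_pow_eq_monomial, X_pow_eq_monomial, monomial_mul, one_mul, ← e3,
        smul_monomial, smul_eq_mul, mul_one]
    apply Submodule.mem_sup_right
    have : ((0, monomial m c) : S K × S K) = c • ((0, base K r) : S K × S K) := by
      rw [hb]; simp
    rw [this]
    exact Submodule.smul_mem _ _ (Submodule.subset_span (by simp))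

theorem fst_mem {r : ℤ × ℤ} (m : Idx 1 1 →₀ ℕ) (hm : Finsupp.weight (wt 1 1) m = r) (c : K) :
    ((monomial m c, 0) : S K × S K) ∈ bdry' K r := by
  by_cases h : m (Sum.inl 1) ≠ 0
  · have e : monomial m c = x1 * monomial (m - Finsupp.single (Sum.inl 1) 1) c := by
      rw [x1, X, monomial_mul, one_mul, add_tsub_cancel_of_le]
      rw [Finsupp.single_le_iff]; omega
    set m' := m - Finsupp.single (Sum.inl 1) 1 with hm'
    have hmem : monomial m' c ∈ CoxPiece K 1 1 (r - (1, 0)) := by
      have : x1 * monomial m' c ∈ CoxPiece K 1 1 r := by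
        rw [← e, mem_weightedHomogeneousSubmodule]
        exact isWeightedHomogeneous_monomial _ _ _ hm
      exact mem_of_X_mul this
    have h1 : ((monomial m c, - (x0 * monomial m' c)) : S K × S K) ∈ bdry K r :=
      ⟨monomial m' c, hmem, 0, zero_mem _, 0, zero_mem _, 0, zero_mem _, by simp [e], by simp⟩
    have e2 : x0 * monomial m' c = monomial (Finsupp.single (Sum.inl 0) 1 + m') c := by
      rw [x0, X, monomial_mul, one_mul]
    have e3 : Finsupp.weight (wt 1 1) (Finsupp.single (Sum.inl 0) 1 + m') = r := by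
      by_cases hc : c = 0
      · rw [← hm]
        have : m = m' + Finsupp.single (Sum.inl 1) 1 := by
          rw [hm', tsub_add_cancel_of_le]
          rw [Finsupp.single_le_iff]; omega
        rw [this, map_add, map_add, Finsupp.weight_single, Finsupp.weight_single]
        simp [wt, add_comm]
      · rw [← hm]
        have : m = m' + Finsupp.single (Sum.inl 1) 1 := by
          rw [hm', tsub_add_cancel_of_le]
          rw [Finsupp.single_le_iff]; omega
        rw [this, map_add, map_add, Finsupp.weight_single, Finsupp.weight_single]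
        simp [wt, add_comm]
    have h2 := (snd_mem _ e3 c).1
    have h3 : ((monomial m c, 0) : S K × S K) =
        (monomial m c, - (x0 * monomial m' c)) +
          (0, monomial (Finsupp.single (Sum.inl 0) 1 + m') c) := by
      rw [← e2]; simp
    rw [h3]
    exact add_mem (Submodule.mem_sup_left h1) h2
  · by_cases h' : m (Sum.inr 1) ≠ 0
    · have e : monomial m c = y1 * monomial (m - Finsupp.single (Sum.inr 1) 1) c := by
        rw [y1, X, monomial_mul, one_mul, add_tsub_cancel_of_le]
        rw [Finsupp.single_le_iff]; omega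
      set m' := m - Finsupp.single (Sum.inr 1) 1 with hm'
      have hmem : monomial m' c ∈ CoxPiece K 1 1 (r - (0, 1)) := by
        have : y1 * monomial m' c ∈ CoxPiece K 1 1 r := by
          rw [← e, mem_weightedHomogeneousSubmodule]
          exact isWeightedHomogeneous_monomial _ _ _ hm
        exact mem_of_X_mul this
      have h1 : ((monomial m c, - (y0 * monomial m' c)) : S K × S K) ∈ bdry K r :=
        ⟨0, zero_mem _, 0, zero_mem _, monomial m' c, hmem, 0, zero_mem _, by simp [e], by simp⟩
      have e2 : y0 * monomial m' c = monomial (Finsupp.single (Sum.inr 0) 1 + m') c := by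
        rw [y0, X, monomial_mul, one_mul]
      have e3 : Finsupp.weight (wt 1 1) (Finsupp.single (Sum.inr 0) 1 + m') = r := by
        rw [← hm]
        have : m = m' + Finsupp.single (Sum.inr 1) 1 := by
          rw [hm', tsub_add_cancel_of_le]
          rw [Finsupp.single_le_iff]; omega
        rw [this, map_add, map_add, Finsupp.weight_single, Finsupp.weight_single]
        simp [wt, add_comm]
      have h2 := (snd_mem _ e3 c).1
      have h3 : ((monomial m c, 0) : S K × S K) =
          (monomial m c, - (y0 * monomial m' c)) +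
            (0, monomial (Finsupp.single (Sum.inr 0) 1 + m') c) := by
        rw [← e2]; simp
      rw [h3]
      exact add_mem (Submodule.mem_sup_left h1) h2
    · push Not at h h'
      have hb : monomial m c = c • base K r := by
        have e1 : r.1.toNat = m (Sum.inl 0) := by
          rw [← hm, weight_fin, h]; simp
        have e2 : r.2.toNat = m (Sum.inr 0) := by
          rw [← hm, weight_fin, h']; simp
        have e3 : m = Finsupp.single (Sum.inl 0) (m (Sum.inl 0)) +
            Finsupp.single (Sum.inr 0) (m (Sum.inr 0)) := by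
          ext k
          rcases k with k | k <;> fin_cases k <;> simp [h, h']
        unfold base
        rw [e1, e2, x0, y0, X_pow_eq_monomial, X_pow_eq_monomial, monomial_mul, one_mul, ← e3,
          smul_monomial, smul_eq_mul, mul_one]
      apply Submodule.mem_sup_right
      have : ((monomial m c, 0) : S K × S K) = c • ((base K r, 0) : S K × S K) := by
        rw [hb]; simp
      rw [this]
      exact Submodule.smul_mem _ _ (Submodule.subset_span (by simp))

theorem mem_bdry' {r : ℤ × ℤ} {G : S K × S K} (h1 : G.1 ∈ CoxPiece K 1 1 r)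
    (h2 : G.2 ∈ CoxPiece K 1 1 r) : G ∈ bdry' K r := by
  have e : G = ∑ m ∈ G.1.support, ((monomial m (coeff m G.1), 0) : S K × S K) +
      ∑ m ∈ G.2.support, ((0, monomial m (coeff m G.2)) : S K × S K) := by
    ext1
    · rw [Prod.fst_add, Prod.fst_sum, Prod.fst_sum]
      simp only [Finset.sum_const_zero, add_zero]
      exact G.1.as_sum
    · rw [Prod.snd_add, Prod.snd_sum, Prod.snd_sum]
      simp only [Finset.sum_const_zero, zero_add]
      exact G.2.as_sum
  rw [e]
  rw [mem_weightedHomogeneousSubmodule] at h1 h2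
  refine add_mem (sum_mem fun m hm => fst_mem m (h1 (mem_support_iff.mp hm)) _)
    (sum_mem fun m hm => (snd_mem m (h2 (mem_support_iff.mp hm)) _).1)

/-- Evaluation at the fat point. -/
noncomputable def ev (K : Type u) [Field K] : S K →ₐ[K] DualNumber K :=
  aeval (Sum.elim (fun k : Fin 2 => if k = 0 then 1 else DualNumber.eps)
    (fun k : Fin 2 => if k = 0 then 1 else DualNumber.eps))

@[simp] theorem ev_x0 : ev K x0 = 1 := by simp [ev]
@[simp] theorem ev_x1 : ev K x1 = DualNumber.eps := by simp [ev]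
@[simp] theorem ev_y0 : ev K y0 = 1 := by simp [ev]
@[simp] theorem ev_y1 : ev K y1 = DualNumber.eps := by simp [ev]

/-- The identification of the cokernel of the Koszul complex. -/
noncomputable def psi (G : S K × S K) : DualNumber K := ev K G.1 + DualNumber.eps * ev K G.2

theorem psi_bdry {r : ℤ × ℤ} {G : S K × S K} (h : G ∈ bdry K r) : psi G = 0 := by
  obtain ⟨a0, ha0, a1, ha1, b0, hb0, b1, hb1, h1, h2⟩ := h
  have he : (DualNumber.eps : DualNumber K) * DualNumber.eps = 0 := DualNumber.eps_mul_eps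
  unfold psi
  rw [h1, h2]
  simp only [map_add, map_sub, map_mul, ev_x0, ev_x1, ev_y0, ev_y1]
  linear_combination (ev K a1 + ev K b1) * he

theorem psi_eq_zero {r : ℤ × ℤ} {G : S K × S K} (h1 : G.1 ∈ CoxPiece K 1 1 r)
    (h2 : G.2 ∈ CoxPiece K 1 1 r) (h : psi G = 0) : G ∈ bdry K r := by
  obtain ⟨B, hB, C, hC, hG⟩ := Submodule.mem_sup.mp (mem_bdry' h1 h2)
  obtain ⟨c, d, rfl⟩ := Submodule.mem_span_pair.mp hC
  have e : psi (c • ((base K r, 0) : S K × S K) + d • ((0, base K r) : S K × S K)) =
      algebraMap K _ c + algebraMap K _ d * DualNumber.eps := by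
    unfold psi base
    simp [Algebra.smul_def]
    ring
  have e2 : psi G = psi B +
      psi (c • ((base K r, 0) : S K × S K) + d • ((0, base K r) : S K × S K)) := by
    rw [← hG]
    unfold psi
    simp only [Prod.fst_add, Prod.snd_add, map_add]
    ring
  rw [e2, psi_bdry hB, e, zero_add] at h
  have hc : c = 0 := by
    have := congrArg TrivSqZeroExt.fst h
    simpa [TrivSqZeroExt.algebraMap_eq_inl] using this
  have hd : d = 0 := by
    have := congrArg TrivSqZeroExt.snd h
    simpa [TrivSqZeroExt.algebraMap_eq_inl] using this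
  rw [← hG, hc, hd]
  simpa using hB

end Pool.Agent.MP_df5a96_ag.General
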