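import Pool.Agent.MP_df5a96_ag.General.Exterior
import Pool.Agent.MP_df5a96_ag.General.Poly

/-!
# The modules `Λ^{a₁} U₁ ⊠ Λ^{a₂} U₂` on `ℙ¹ × ℙ¹`
-/

open MvPolynomial

namespace Pool.Agent.MP_df5a96_ag.General

universe u

/-- The variables of the Cox ring. -/
noncomputable abbrev xs (K : Type u) [Field K] (n₁ n₂ : ℕ) : Idx n₁ n₂ → CoxRing K n₁ n₂ :=
  fun k => X k

/-- The subspace formed by the elements satisfying `IsTaut`. -/
def tautPiece {K : Type u} [Field K] {n₁ n₂ : ℕ} {V : Type u} [AddCommGroup V] [Module K V]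
    (b : Module.Basis (Idx n₁ n₂) K V) (a r : ℤ × ℤ) :
    Submodule K (ExteriorAlgebra K V →ₗ[K] CoxRing K n₁ n₂) where
  carrier := {φ | IsTaut (vec b) (xs K n₁ n₂) (CoxPiece K n₁ n₂) a r φ}
  add_mem' := by
    rintro φ ψ ⟨h1, h2, h3, h4⟩ ⟨g1, g2, g3, g4⟩
    refine ⟨fun p q h ξ hξ => ?_, fun p q h ξ hξ => ?_, fun ξ => ?_, fun ξ => ?_⟩
    · exact add_mem (h1 p q h ξ hξ) (g1 p q h ξ hξ)
    · rw [LinearMap.add_apply, h2 p q h ξ hξ, g2 p q h ξ hξ, add_zero]
    · simp only [LinearMap.add_apply, mul_add, Finset.sum_add_distrib, h3, g3, add_zero]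
    · simp only [LinearMap.add_apply, mul_add, Finset.sum_add_distrib, h4, g4, add_zero]
  zero_mem' := by
    refine ⟨fun p q h ξ hξ => zero_mem _, fun p q h ξ hξ => rfl, fun ξ => ?_, fun ξ => ?_⟩ <;> simp
  smul_mem' := by
    rintro c φ ⟨h1, h2, h3, h4⟩
    refine ⟨fun p q h ξ hξ => ?_, fun p q h ξ hξ => ?_, fun ξ => ?_, fun ξ => ?_⟩
    · exact Submodule.smul_mem _ c (h1 p q h ξ hξ)
    · rw [LinearMap.smul_apply, h2 p q h ξ hξ, smul_zero]
    · simp only [LinearMap.smul_apply, mul_smul_comm, ← Finset.smul_sum, h3, smul_zero]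
    · simp only [LinearMap.smul_apply, mul_smul_comm, ← Finset.smul_sum, h4, smul_zero]

section general

variable {K : Type u} [Field K] {n₁ n₂ : ℕ} {V : Type u} [AddCommGroup V] [Module K V]
  {b : Module.Basis (Idx n₁ n₂) K V} {a r : ℤ × ℤ}
  {φ : ExteriorAlgebra K V →ₗ[K] CoxRing K n₁ n₂}

theorem act_smul (ξ : ExteriorAlgebra K V) (s : CoxRing K n₁ n₂) :
    act ξ (s • φ) = s • act ξ φ := rfl

theorem taut_inl (h : φ ∈ tautPiece b a r) :
    ∑ k : Fin (n₁ + 1), (X (Sum.inl k) : CoxRing K n₁ n₂) • act (vec b (Sum.inl k)) φ = 0 := by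
  refine LinearMap.ext fun ξ => ?_
  rw [LinearMap.sum_apply]
  exact h.2.2.1 ξ

theorem taut_inr (h : φ ∈ tautPiece b a r) :
    ∑ l : Fin (n₂ + 1), (X (Sum.inr l) : CoxRing K n₁ n₂) • act (vec b (Sum.inr l)) φ = 0 := by
  refine LinearMap.ext fun ξ => ?_
  rw [LinearMap.sum_apply]
  exact h.2.2.2 ξ

theorem act_inl_taut (k : Fin (n₁ + 1)) (h : φ ∈ tautPiece b a r) :
    act (vec b (Sum.inl k)) φ ∈ tautPiece b (a - (1, 0)) r := by
  obtain ⟨h1, h2, h3, h4⟩ := h
  refine ⟨fun p q hpq ξ hξ => ?_, fun p q hpq ξ hξ => ?_, fun ξ => ?_, fun ξ => ?_⟩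
  · apply h1 (p + 1) q
    · have : a = a - (1, 0) + (1, 0) := by abel
      rw [this, hpq]
      simp
    · rw [← extComp_mul_V₁]
      exact Submodule.mul_mem_mul hξ (vec_inl_mem k)
  · apply h2 (p + 1) q
    · intro ha
      apply hpq
      rw [ha]
      simp
    · rw [← extComp_mul_V₁]
      exact Submodule.mul_mem_mul hξ (vec_inl_mem k)
  · have := h3 (ξ * vec b (Sum.inl k))
    rw [← neg_eq_zero, ← Finset.sum_neg_distrib]
    rw [← this]
    refine Finset.sum_congr rfl fun i _ => ?_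
    rw [act_apply, mul_assoc, vec_mul_comm, mul_neg, map_neg, mul_neg, neg_neg, mul_assoc]
  · have := h4 (ξ * vec b (Sum.inl k))
    rw [← neg_eq_zero, ← Finset.sum_neg_distrib]
    rw [← this]
    refine Finset.sum_congr rfl fun i _ => ?_
    rw [act_apply, mul_assoc, vec_mul_comm, mul_neg, map_neg, mul_neg, neg_neg, mul_assoc]

theorem act_inr_taut (k : Fin (n₂ + 1)) (h : φ ∈ tautPiece b a r) :
    act (vec b (Sum.inr k)) φ ∈ tautPiece b (a - (0, 1)) r := by
  obtain ⟨h1, h2, h3, h4⟩ := h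
  refine ⟨fun p q hpq ξ hξ => ?_, fun p q hpq ξ hξ => ?_, fun ξ => ?_, fun ξ => ?_⟩
  · apply h1 p (q + 1)
    · have : a = a - (0, 1) + (0, 1) := by abel
      rw [this, hpq]
      simp
    · rw [← extComp_mul_V₂]
      exact Submodule.mul_mem_mul hξ (vec_inr_mem k)
  · apply h2 p (q + 1)
    · intro ha
      apply hpq
      rw [ha]
      simp
    · rw [← extComp_mul_V₂]
      exact Submodule.mul_mem_mul hξ (vec_inr_mem k)
  · have := h3 (ξ * vec b (Sum.inr k))
    rw [← neg_eq_zero, ← Finset.sum_neg_distrib]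
    rw [← this]
    refine Finset.sum_congr rfl fun i _ => ?_
    rw [act_apply, mul_assoc, vec_mul_comm, mul_neg, map_neg, mul_neg, neg_neg, mul_assoc]
  · have := h4 (ξ * vec b (Sum.inr k))
    rw [← neg_eq_zero, ← Finset.sum_neg_distrib]
    rw [← this]
    refine Finset.sum_congr rfl fun i _ => ?_
    rw [act_apply, mul_assoc, vec_mul_comm, mul_neg, map_neg, mul_neg, neg_neg, mul_assoc]

theorem eq_zero_of_neg (h : φ ∈ tautPiece b a r) (ha : a.1 < 0 ∨ a.2 < 0) : φ = 0 := by
  apply ext_comp b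
  intro p q ξ hξ
  apply h.2.1 p q _ ξ hξ
  intro he
  rw [he] at ha
  simp at ha
  omega

theorem eq_zero_of_inl (h : φ ∈ tautPiece b a r) (ha : a.1 ≠ 0)
    (h0 : ∀ k, act (vec b (Sum.inl k)) φ = 0) : φ = 0 := by
  apply ext_comp b
  intro p q ξ hξ
  by_cases he : a = ((p : ℤ), (q : ℤ))
  · obtain ⟨p', rfl⟩ : ∃ p', p = p' + 1 := by
      refine ⟨p - 1, ?_⟩
      rw [he] at ha
      simp at ha
      omega
    rw [← extComp_mul_V₁] at hξ
    induction hξ using Submodule.mul_induction_on' with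
    | mem_mul_mem a ha b hb =>
      induction hb using Submodule.span_induction with
      | mem b hb =>
        obtain ⟨l, rfl⟩ := hb
        exact LinearMap.congr_fun (h0 l) a
      | zero => simp
      | add x y hx hy h1 h2 => rw [mul_add, map_add, h1, h2, LinearMap.zero_apply,
          LinearMap.zero_apply, LinearMap.zero_apply, add_zero]
      | smul c x hx h => rw [mul_smul_comm, map_smul, h, LinearMap.zero_apply,
          LinearMap.zero_apply, smul_zero]
    | add x hx y hy h1 h2 => rw [map_add, h1, h2, LinearMap.zero_apply,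
          LinearMap.zero_apply, LinearMap.zero_apply, add_zero]
  · exact h.2.1 p q he ξ hξ

theorem eq_zero_of_inr (h : φ ∈ tautPiece b a r) (ha : a.2 ≠ 0)
    (h0 : ∀ k, act (vec b (Sum.inr k)) φ = 0) : φ = 0 := by
  apply ext_comp b
  intro p q ξ hξ
  by_cases he : a = ((p : ℤ), (q : ℤ))
  · obtain ⟨q', rfl⟩ : ∃ q', q = q' + 1 := by
      refine ⟨q - 1, ?_⟩
      rw [he] at ha
      simp at ha
      omega
    rw [← extComp_mul_V₂] at hξ
    induction hξ using Submodule.mul_induction_on' with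
    | mem_mul_mem a ha b hb =>
      induction hb using Submodule.span_induction with
      | mem b hb =>
        obtain ⟨l, rfl⟩ := hb
        exact LinearMap.congr_fun (h0 l) a
      | zero => simp
      | add x y hx hy h1 h2 => rw [mul_add, map_add, h1, h2, LinearMap.zero_apply,
          LinearMap.zero_apply, LinearMap.zero_apply, add_zero]
      | smul c x hx h => rw [mul_smul_comm, map_smul, h, LinearMap.zero_apply,
          LinearMap.zero_apply, smul_zero]
    | add x hx y hy h1 h2 => rw [map_add, h1, h2, LinearMap.zero_apply,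
          LinearMap.zero_apply, LinearMap.zero_apply, add_zero]
  · exact h.2.1 p q he ξ hξ

/-- The functional `ξ ↦ ξ₀ g`, where `ξ₀` is the constant term of `ξ`. -/
noncomputable def aug (K : Type u) [Field K] (n₁ n₂ : ℕ) (V : Type u) [AddCommGroup V] [Module K V] :
    CoxRing K n₁ n₂ →ₗ[CoxRing K n₁ n₂] (ExteriorAlgebra K V →ₗ[K] CoxRing K n₁ n₂) where
  toFun g := ExteriorAlgebra.algebraMapInv.toLinearMap.smulRight g
  map_add' g h := by
    refine LinearMap.ext fun ξ => ?_
    simp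
  map_smul' s g := by
    refine LinearMap.ext fun ξ => ?_
    simp

theorem aug_apply (g : CoxRing K n₁ n₂) (ξ : ExteriorAlgebra K V) :
    aug K n₁ n₂ V g ξ = ExteriorAlgebra.algebraMapInv ξ • g := rfl

theorem aug_one (g : CoxRing K n₁ n₂) : aug K n₁ n₂ V g 1 = g := by
  rw [aug_apply, map_one, one_smul]

theorem algebraMapInv_vec (k : Idx n₁ n₂) : ExteriorAlgebra.algebraMapInv (vec b k) = 0 := by
  unfold vec ExteriorAlgebra.algebraMapInv
  simp

theorem act_vec_aug (k : Idx n₁ n₂) (g : CoxRing K n₁ n₂) :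
    act (vec b k) (aug K n₁ n₂ V g) = 0 := by
  refine LinearMap.ext fun ξ => ?_
  rw [act_apply, aug_apply, map_mul, algebraMapInv_vec, mul_zero, zero_smul]
  rfl

theorem aug_V₁ (x : ExteriorAlgebra K V) (hx : x ∈ V₁ K (vec b)) :
    ExteriorAlgebra.algebraMapInv x = 0 := by
  induction hx using Submodule.span_induction with
  | mem b hb =>
    obtain ⟨l, rfl⟩ := hb
    exact algebraMapInv_vec _
  | zero => simp
  | add x y hx hy h1 h2 => rw [map_add, h1, h2, add_zero]
  | smul c x hx h => rw [map_smul, h, smul_zero]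

theorem aug_V₂ (x : ExteriorAlgebra K V) (hx : x ∈ V₂ K (vec b)) :
    ExteriorAlgebra.algebraMapInv x = 0 := by
  induction hx using Submodule.span_induction with
  | mem b hb =>
    obtain ⟨l, rfl⟩ := hb
    exact algebraMapInv_vec _
  | zero => simp
  | add x y hx hy h1 h2 => rw [map_add, h1, h2, add_zero]
  | smul c x hx h => rw [map_smul, h, smul_zero]

theorem aug_extComp {p q : ℕ} (hpq : ¬ (p = 0 ∧ q = 0)) (x : ExteriorAlgebra K V)
    (hx : x ∈ extComp K (vec b) p q) : ExteriorAlgebra.algebraMapInv x = 0 := by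
  by_cases hp : p = 0
  · obtain ⟨q', rfl⟩ : ∃ q', q = q' + 1 := ⟨q - 1, by omega⟩
    rw [← extComp_mul_V₂] at hx
    induction hx using Submodule.mul_induction_on' with
    | mem_mul_mem a ha b hb => rw [map_mul, aug_V₂ b hb, mul_zero]
    | add x hx y hy h1 h2 => rw [map_add, h1, h2, add_zero]
  · obtain ⟨p', rfl⟩ : ∃ p', p = p' + 1 := ⟨p - 1, by omega⟩
    rw [← extComp_mul_V₁] at hx
    induction hx using Submodule.mul_induction_on' with
    | mem_mul_mem a ha b hb => rw [map_mul, aug_V₁ b hb, mul_zero]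
    | add x hx y hy h1 h2 => rw [map_add, h1, h2, add_zero]

theorem aug_mem {g : CoxRing K n₁ n₂} (hg : g ∈ CoxPiece K n₁ n₂ r) :
    aug K n₁ n₂ V g ∈ tautPiece b (0, 0) r := by
  refine ⟨fun p q hpq ξ hξ => ?_, fun p q hpq ξ hξ => ?_, fun ξ => ?_, fun ξ => ?_⟩
  · exact Submodule.smul_mem _ _ hg
  · rw [aug_apply, aug_extComp _ ξ hξ, zero_smul]
    rintro ⟨rfl, rfl⟩
    exact hpq rfl
  · refine Finset.sum_eq_zero fun k _ => ?_
    rw [aug_apply, map_mul, algebraMapInv_vec, mul_zero, zero_smul, mul_zero]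
  · refine Finset.sum_eq_zero fun k _ => ?_
    rw [aug_apply, map_mul, algebraMapInv_vec, mul_zero, zero_smul, mul_zero]

theorem eq_aug (h : φ ∈ tautPiece b (0, 0) r) : φ = aug K n₁ n₂ V (φ 1) := by
  apply ext_comp b
  intro p q ξ hξ
  by_cases hpq : p = 0 ∧ q = 0
  · obtain ⟨rfl, rfl⟩ := hpq
    unfold extComp at hξ
    rw [pow_zero, pow_zero, one_mul, Submodule.mem_one] at hξ
    obtain ⟨c, rfl⟩ := hξ
    rw [aug_apply, ExteriorAlgebra.algebraMap_leftInverse, Algebra.algebraMap_eq_smul_one,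
      map_smul]
  · rw [aug_apply, aug_extComp hpq ξ hξ, zero_smul]
    apply h.2.1 p q _ ξ hξ
    intro he
    apply hpq
    simp only [Prod.mk.injEq] at he
    omega

theorem one_mem_extComp : (1 : ExteriorAlgebra K V) ∈ extComp K (vec b) 0 0 := by
  unfold extComp
  rw [pow_zero, pow_zero, one_mul]
  exact Submodule.one_le.mp le_rfl

theorem apply_one_mem (h : φ ∈ tautPiece b (0, 0) r) : φ 1 ∈ CoxPiece K n₁ n₂ r :=
  h.1 0 0 rfl 1 one_mem_extComp

end general

/-! ### The case of `ℙ¹ × ℙ¹` -/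

variable {K : Type u} [Field K] {V : Type u} [AddCommGroup V] [Module K V]
  {b : Module.Basis (Idx 1 1) K V} {a r : ℤ × ℤ}

/-- `Hom_K(E, S)` -/
abbrev HS (K : Type u) [Field K] (V : Type u) [AddCommGroup V] [Module K V] :=
  ExteriorAlgebra K V →ₗ[K] S K

/-- Multiplication by a linear form, as an `S`-linear map. -/
noncomputable def hopS (w : Module.Dual K V) : HS K V →ₗ[S K] HS K V where
  toFun φ := hop w φ
  map_add' := map_add _
  map_smul' _ _ := rfl

/-- Multiplication by the generator `x₁ w₀ - x₀ w₁` of `U₁`. -/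
noncomputable def kap1 (b : Module.Basis (Idx 1 1) K V) : HS K V →ₗ[S K] HS K V :=
  (x1 : S K) • hopS (b.coord (Sum.inl 0)) - (x0 : S K) • hopS (b.coord (Sum.inl 1))

/-- Multiplication by the generator `y₁ w₀' - y₀ w₁'` of `U₂`. -/
noncomputable def kap2 (b : Module.Basis (Idx 1 1) K V) : HS K V →ₗ[S K] HS K V :=
  (y1 : S K) • hopS (b.coord (Sum.inr 0)) - (y0 : S K) • hopS (b.coord (Sum.inr 1))

theorem kap1_def (φ : HS K V) : kap1 b φ =
    (x1 : S K) • hop (b.coord (Sum.inl 0)) φ - (x0 : S K) • hop (b.coord (Sum.inl 1)) φ := rfl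

theorem kap2_def (φ : HS K V) : kap2 b φ =
    (y1 : S K) • hop (b.coord (Sum.inr 0)) φ - (y0 : S K) • hop (b.coord (Sum.inr 1)) φ := rfl

theorem e0_kap1 (φ : HS K V) : act (vec b (Sum.inl 0)) (kap1 b φ) =
    (x1 : S K) • φ - kap1 b (act (vec b (Sum.inl 0)) φ) := by
  rw [kap1_def, kap1_def, map_sub, act_smul, act_smul, act_vec_hop, act_vec_hop]
  simp only [if_true, Sum.inl.injEq, one_ne_zero, if_false, zero_sub, smul_neg, smul_sub]
  abel

theorem e1_kap1 (φ : HS K V) : act (vec b (Sum.inl 1)) (kap1 b φ) =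
    - ((x0 : S K) • φ) - kap1 b (act (vec b (Sum.inl 1)) φ) := by
  rw [kap1_def, kap1_def, map_sub, act_smul, act_smul, act_vec_hop, act_vec_hop]
  simp only [if_true, Sum.inl.injEq, zero_ne_one, if_false, zero_sub, smul_neg, smul_sub]
  abel

theorem f_kap1 (l : Fin 2) (φ : HS K V) : act (vec b (Sum.inr l)) (kap1 b φ) =
    - kap1 b (act (vec b (Sum.inr l)) φ) := by
  rw [kap1_def, kap1_def, map_sub, act_smul, act_smul, act_vec_hop, act_vec_hop]
  simp only [reduceCtorEq, if_false, zero_sub, smul_neg]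
  abel

theorem f0_kap2 (φ : HS K V) : act (vec b (Sum.inr 0)) (kap2 b φ) =
    (y1 : S K) • φ - kap2 b (act (vec b (Sum.inr 0)) φ) := by
  rw [kap2_def, kap2_def, map_sub, act_smul, act_smul, act_vec_hop, act_vec_hop]
  simp only [if_true, Sum.inr.injEq, one_ne_zero, if_false, zero_sub, smul_neg, smul_sub]
  abel

theorem f1_kap2 (φ : HS K V) : act (vec b (Sum.inr 1)) (kap2 b φ) =
    - ((y0 : S K) • φ) - kap2 b (act (vec b (Sum.inr 1)) φ) := by
  rw [kap2_def, kap2_def, map_sub, act_smul, act_smul, act_vec_hop, act_vec_hop]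
  simp only [if_true, Sum.inr.injEq, zero_ne_one, if_false, zero_sub, smul_neg, smul_sub]
  abel

theorem e_kap2 (l : Fin 2) (φ : HS K V) : act (vec b (Sum.inl l)) (kap2 b φ) =
    - kap2 b (act (vec b (Sum.inl l)) φ) := by
  rw [kap2_def, kap2_def, map_sub, act_smul, act_smul, act_vec_hop, act_vec_hop]
  simp only [reduceCtorEq, if_false, zero_sub, smul_neg]
  abel

theorem sum_two {M : Type*} [AddCommMonoid M] (f : Fin (1 + 1) → M) : ∑ x, f x = f 0 + f 1 :=
  Fin.sum_univ_two f

theorem kap1_mem {φ : HS K V} (h : φ ∈ tautPiece b a r) :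
    kap1 b φ ∈ tautPiece b (a + (1, 0)) (r + (1, 0)) := by
  have hl := taut_inl h
  have hr := taut_inr h
  rw [sum_two] at hl hr
  refine ⟨fun p q hpq ξ hξ => ?_, fun p q hpq ξ hξ => ?_, fun ξ => ?_, fun ξ => ?_⟩
  · cases p with
    | zero =>
      rw [kap1_def]
      simp only [LinearMap.sub_apply, LinearMap.smul_apply, hop_apply, contract_inl_zero _ _ ξ hξ,
        map_zero, smul_zero, sub_zero]
      exact zero_mem _
    | succ p =>
      have ha : a = ((p : ℤ), (q : ℤ)) := by
        have : a = a + (1, 0) - (1, 0) := by abel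
        rw [this, hpq]
        simp
      rw [kap1_def]
      simp only [LinearMap.sub_apply, LinearMap.smul_apply, hop_apply, smul_eq_mul]
      have e : r + (1, 0) = (1, 0) + r := add_comm _ _
      rw [e]
      exact sub_mem (X_mul_mem (h.1 p q ha _ (contract_inl _ _ _ ξ hξ)))
        (X_mul_mem (h.1 p q ha _ (contract_inl _ _ _ ξ hξ)))
  · cases p with
    | zero =>
      rw [kap1_def]
      simp only [LinearMap.sub_apply, LinearMap.smul_apply, hop_apply, contract_inl_zero _ _ ξ hξ,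
        map_zero, smul_zero, sub_zero]
    | succ p =>
      have ha : a ≠ ((p : ℤ), (q : ℤ)) := by
        intro ha
        apply hpq
        rw [ha]
        simp
      rw [kap1_def]
      simp only [LinearMap.sub_apply, LinearMap.smul_apply, hop_apply]
      rw [h.2.1 p q ha _ (contract_inl _ _ _ ξ hξ), h.2.1 p q ha _ (contract_inl _ _ _ ξ hξ),
        smul_zero, smul_zero, sub_zero]
  · have key : (x0 : S K) • act (vec b (Sum.inl 0)) (kap1 b φ) +
        (x1 : S K) • act (vec b (Sum.inl 1)) (kap1 b φ) = 0 := by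
      rw [e0_kap1, e1_kap1]
      have : kap1 b ((x0 : S K) • act (vec b (Sum.inl 0)) φ +
        (x1 : S K) • act (vec b (Sum.inl 1)) φ) = 0 := by rw [hl, map_zero]
      rw [map_add, map_smul, map_smul] at this
      rw [smul_sub, smul_sub, smul_neg, smul_smul, smul_smul, mul_comm (x0 : S K) x1]
      rw [← sub_eq_zero, ← neg_eq_zero] at this
      rw [← this]
      abel
    rw [sum_two]
    exact LinearMap.congr_fun key ξ
  · have key : (y0 : S K) • act (vec b (Sum.inr 0)) (kap1 b φ) +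
        (y1 : S K) • act (vec b (Sum.inr 1)) (kap1 b φ) = 0 := by
      rw [f_kap1, f_kap1]
      have : kap1 b ((y0 : S K) • act (vec b (Sum.inr 0)) φ +
        (y1 : S K) • act (vec b (Sum.inr 1)) φ) = 0 := by rw [hr, map_zero]
      rw [map_add, map_smul, map_smul] at this
      rw [smul_neg, smul_neg, ← neg_add, this, neg_zero]
    rw [sum_two]
    exact LinearMap.congr_fun key ξ

theorem kap2_mem {φ : HS K V} (h : φ ∈ tautPiece b a r) :
    kap2 b φ ∈ tautPiece b (a + (0, 1)) (r + (0, 1)) := by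
  have hl := taut_inl h
  have hr := taut_inr h
  rw [sum_two] at hl hr
  refine ⟨fun p q hpq ξ hξ => ?_, fun p q hpq ξ hξ => ?_, fun ξ => ?_, fun ξ => ?_⟩
  · cases q with
    | zero =>
      rw [kap2_def]
      simp only [LinearMap.sub_apply, LinearMap.smul_apply, hop_apply, contract_inr_zero _ _ ξ hξ,
        map_zero, smul_zero, sub_zero]
      exact zero_mem _
    | succ q =>
      have ha : a = ((p : ℤ), (q : ℤ)) := by
        have : a = a + (0, 1) - (0, 1) := by abel
        rw [this, hpq]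
        simp
      rw [kap2_def]
      simp only [LinearMap.sub_apply, LinearMap.smul_apply, hop_apply, smul_eq_mul]
      have e : r + (0, 1) = (0, 1) + r := add_comm _ _
      rw [e]
      exact sub_mem (X_mul_mem (h.1 p q ha _ (contract_inr _ _ _ ξ hξ)))
        (X_mul_mem (h.1 p q ha _ (contract_inr _ _ _ ξ hξ)))
  · cases q with
    | zero =>
      rw [kap2_def]
      simp only [LinearMap.sub_apply, LinearMap.smul_apply, hop_apply, contract_inr_zero _ _ ξ hξ,
        map_zero, smul_zero, sub_zero]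
    | succ q =>
      have ha : a ≠ ((p : ℤ), (q : ℤ)) := by
        intro ha
        apply hpq
        rw [ha]
        simp
      rw [kap2_def]
      simp only [LinearMap.sub_apply, LinearMap.smul_apply, hop_apply]
      rw [h.2.1 p q ha _ (contract_inr _ _ _ ξ hξ), h.2.1 p q ha _ (contract_inr _ _ _ ξ hξ),
        smul_zero, smul_zero, sub_zero]
  · have key : (x0 : S K) • act (vec b (Sum.inl 0)) (kap2 b φ) +
        (x1 : S K) • act (vec b (Sum.inl 1)) (kap2 b φ) = 0 := by
      rw [e_kap2, e_kap2]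
      have : kap2 b ((x0 : S K) • act (vec b (Sum.inl 0)) φ +
        (x1 : S K) • act (vec b (Sum.inl 1)) φ) = 0 := by rw [hl, map_zero]
      rw [map_add, map_smul, map_smul] at this
      rw [smul_neg, smul_neg, ← neg_add, this, neg_zero]
    rw [sum_two]
    exact LinearMap.congr_fun key ξ
  · have key : (y0 : S K) • act (vec b (Sum.inr 0)) (kap2 b φ) +
        (y1 : S K) • act (vec b (Sum.inr 1)) (kap2 b φ) = 0 := by
      rw [f0_kap2, f1_kap2]
      have : kap2 b ((y0 : S K) • act (vec b (Sum.inr 0)) φ +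
        (y1 : S K) • act (vec b (Sum.inr 1)) φ) = 0 := by rw [hr, map_zero]
      rw [map_add, map_smul, map_smul] at this
      rw [smul_sub, smul_sub, smul_neg, smul_smul, smul_smul, mul_comm (y0 : S K) y1]
      rw [← sub_eq_zero, ← neg_eq_zero] at this
      rw [← this]
      abel
    rw [sum_two]
    exact LinearMap.congr_fun key ξ

theorem HS_smul_eq_zero {k : Idx 1 1} {φ : HS K V} (h : (X k : S K) • φ = 0) : φ = 0 := by
  refine LinearMap.ext fun ξ => ?_
  have h1 : (X k : S K) * φ ξ = 0 := LinearMap.congr_fun h ξ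
  exact (mul_eq_zero.mp h1).resolve_left (X_ne_zero k)

theorem act_act_inl {φ : HS K V} (h : φ ∈ tautPiece b a r) (k l : Fin 2) :
    act (vec b (Sum.inl k)) (act (vec b (Sum.inl l)) φ) = 0 := by
  have hl := taut_inl h
  rw [sum_two] at hl
  have hsq : ∀ k, act (vec b k) (act (vec b k) φ) = 0 := by
    intro k
    rw [← act_mul, vec_mul_self, act_zero]
  have h01 : act (vec b (Sum.inl 0)) (act (vec b (Sum.inl 1)) φ) = 0 := by
    have := congrArg (act (vec b (Sum.inl 0))) hl
    rw [map_add, act_smul, act_smul, map_zero] at this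
    erw [hsq] at this
    rw [smul_zero, zero_add] at this
    exact HS_smul_eq_zero this
  have h10 : act (vec b (Sum.inl 1)) (act (vec b (Sum.inl 0)) φ) = 0 := by
    rw [← act_mul, vec_mul_comm, act_neg, act_mul, h01, neg_zero]
  fin_cases k <;> fin_cases l
  · exact hsq _
  · exact h01
  · exact h10
  · exact hsq _

theorem act_act_inr {φ : HS K V} (h : φ ∈ tautPiece b a r) (k l : Fin 2) :
    act (vec b (Sum.inr k)) (act (vec b (Sum.inr l)) φ) = 0 := by
  have hl := taut_inr h
  rw [sum_two] at hl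
  have hsq : ∀ k, act (vec b k) (act (vec b k) φ) = 0 := by
    intro k
    rw [← act_mul, vec_mul_self, act_zero]
  have h01 : act (vec b (Sum.inr 0)) (act (vec b (Sum.inr 1)) φ) = 0 := by
    have := congrArg (act (vec b (Sum.inr 0))) hl
    rw [map_add, act_smul, act_smul, map_zero] at this
    erw [hsq] at this
    rw [smul_zero, zero_add] at this
    exact HS_smul_eq_zero this
  have h10 : act (vec b (Sum.inr 1)) (act (vec b (Sum.inr 0)) φ) = 0 := by
    rw [← act_mul, vec_mul_comm, act_neg, act_mul, h01, neg_zero]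
  fin_cases k <;> fin_cases l
  · exact hsq _
  · exact h01
  · exact h10
  · exact hsq _

theorem eq_zero_of_out {φ : HS K V} (h : φ ∈ tautPiece b a r)
    (ha : a.1 < 0 ∨ 1 < a.1 ∨ a.2 < 0 ∨ 1 < a.2) : φ = 0 := by
  rcases ha with ha | ha | ha | ha
  · exact eq_zero_of_neg h (Or.inl ha)
  · apply eq_zero_of_inl h (by omega)
    intro k
    apply eq_zero_of_inl (act_inl_taut k h)
    · show a.1 - 1 ≠ 0
      omega
    · intro l
      exact act_act_inl h l k
  · exact eq_zero_of_neg h (Or.inr ha)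
  · apply eq_zero_of_inr h (by omega)
    intro k
    apply eq_zero_of_inr (act_inr_taut k h)
    · show a.2 - 1 ≠ 0
      omega
    · intro l
      exact act_act_inr h l k

theorem taut_10 {φ : HS K V} (h : φ ∈ tautPiece b (1, 0) r) :
    ∃ g ∈ CoxPiece K 1 1 (r - (1, 0)), φ = kap1 b (aug K 1 1 V g) := by
  have h' : ∀ k, act (vec b (Sum.inl k)) φ ∈ tautPiece b (0, 0) r := fun k =>
    act_inl_taut k h
  have hl := taut_inl h
  rw [sum_two] at hl
  have h1 : x0 * (act (vec b (Sum.inl 0)) φ 1) + x1 * (act (vec b (Sum.inl 1)) φ 1) = 0 :=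
    LinearMap.congr_fun hl 1
  obtain ⟨g, hg0, hg1⟩ := syzygy (by decide) h1
  have hgm : g ∈ CoxPiece K 1 1 (r - (1, 0)) := by
    apply mem_of_X_mul (j := Sum.inl 1)
    rw [← hg0]
    exact apply_one_mem (h' 0)
  refine ⟨g, hgm, ?_⟩
  have hk : kap1 b (aug K 1 1 V g) ∈ tautPiece b (1, 0) r := by
    have := kap1_mem (aug_mem (b := b) hgm)
    simpa using this
  rw [← sub_eq_zero]
  apply eq_zero_of_inl (sub_mem h hk) (by simp)
  intro k
  rw [map_sub, sub_eq_zero]
  fin_cases k
  · show act (vec b (Sum.inl 0)) φ = act (vec b (Sum.inl 0)) (kap1 b (aug K 1 1 V g))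
    rw [e0_kap1, act_vec_aug, map_zero, sub_zero, eq_aug (h' 0), hg0, ← smul_eq_mul, map_smul]
  · show act (vec b (Sum.inl 1)) φ = act (vec b (Sum.inl 1)) (kap1 b (aug K 1 1 V g))
    rw [e1_kap1, act_vec_aug, map_zero, sub_zero, eq_aug (h' 1), hg1, ← smul_eq_mul, map_neg,
      map_smul]

theorem taut_01 {φ : HS K V} (h : φ ∈ tautPiece b (0, 1) r) :
    ∃ g ∈ CoxPiece K 1 1 (r - (0, 1)), φ = kap2 b (aug K 1 1 V g) := by
  have h' : ∀ k, act (vec b (Sum.inr k)) φ ∈ tautPiece b (0, 0) r := fun k =>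
    act_inr_taut k h
  have hl := taut_inr h
  rw [sum_two] at hl
  have h1 : y0 * (act (vec b (Sum.inr 0)) φ 1) + y1 * (act (vec b (Sum.inr 1)) φ 1) = 0 :=
    LinearMap.congr_fun hl 1
  obtain ⟨g, hg0, hg1⟩ := syzygy (by decide) h1
  have hgm : g ∈ CoxPiece K 1 1 (r - (0, 1)) := by
    apply mem_of_X_mul (j := Sum.inr 1)
    rw [← hg0]
    exact apply_one_mem (h' 0)
  refine ⟨g, hgm, ?_⟩
  have hk : kap2 b (aug K 1 1 V g) ∈ tautPiece b (0, 1) r := by
    have := kap2_mem (aug_mem (b := b) hgm)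
    simpa using this
  rw [← sub_eq_zero]
  apply eq_zero_of_inr (sub_mem h hk) (by simp)
  intro k
  rw [map_sub, sub_eq_zero]
  fin_cases k
  · show act (vec b (Sum.inr 0)) φ = act (vec b (Sum.inr 0)) (kap2 b (aug K 1 1 V g))
    rw [f0_kap2, act_vec_aug, map_zero, sub_zero, eq_aug (h' 0), hg0, ← smul_eq_mul, map_smul]
  · show act (vec b (Sum.inr 1)) φ = act (vec b (Sum.inr 1)) (kap2 b (aug K 1 1 V g))
    rw [f1_kap2, act_vec_aug, map_zero, sub_zero, eq_aug (h' 1), hg1, ← smul_eq_mul, map_neg,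
      map_smul]

theorem taut_11 {φ : HS K V} {e : ℤ} (h : φ ∈ tautPiece b (1, e) r)
    (h0 : act (vec b (Sum.inl 0)) φ = 0) : φ = 0 := by
  have hl := taut_inl h
  rw [sum_two] at hl
  apply eq_zero_of_inl h (by simp)
  intro k
  fin_cases k
  · exact h0
  · rw [h0, smul_zero, zero_add] at hl
    exact HS_smul_eq_zero hl

theorem kap12_mem {g : S K} (hg : g ∈ CoxPiece K 1 1 (r - (1, 0) - (0, 1))) :
    kap1 b (kap2 b (aug K 1 1 V g)) ∈ tautPiece b (1, 1) r := by
  have := kap1_mem (kap2_mem (aug_mem (b := b) hg))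
  simpa using this

theorem kap1_aug_mem {g : S K} (hg : g ∈ CoxPiece K 1 1 (r - (1, 0))) :
    kap1 b (aug K 1 1 V g) ∈ tautPiece b (1, 0) r := by
  have := kap1_mem (aug_mem (b := b) hg)
  simpa using this

theorem kap2_aug_mem {g : S K} (hg : g ∈ CoxPiece K 1 1 (r - (0, 1))) :
    kap2 b (aug K 1 1 V g) ∈ tautPiece b (0, 1) r := by
  have := kap2_mem (aug_mem (b := b) hg)
  simpa using this

end Pool.Agent.MP_df5a96_ag.General
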