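import Pool.Agent.MP_df5a96_ag.General.Tate
import Pool.Agent.MP_df5a96_ag.General.Taut

/-!
# The monads `U(T(c)[|c|])`
-/

open MvPolynomial

namespace Pool.Agent.MP_df5a96_ag.General

universe u

variable {K : Type u} [Field K] {V : Type u} [AddCommGroup V] [Module K V]
  {b : Module.Basis (Idx 1 1) K V}

/-! ### The bigraded module -/

/-- The graded pieces of the module: `K[ε]` in degrees `(i, j)` with `i, j ≥ 0`. -/
def FFobj (K : Type u) [Field K] (i j : ℤ) : Submodule K (DualNumber K) where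
  carrier := {z | i < 0 ∨ j < 0 → z = 0}
  add_mem' := by
    intro a b ha hb h
    rw [ha h, hb h, add_zero]
  zero_mem' _ := rfl
  smul_mem' := by
    intro c a ha h
    rw [ha h, smul_zero]

theorem FFobj_top {i j : ℤ} (hi : 0 ≤ i) (hj : 0 ≤ j) (z : DualNumber K) : z ∈ FFobj K i j := by
  intro h
  omega

/-- Multiplication by `a ∈ K[ε]` from one piece to another. -/
def FFmul (a : DualNumber K) (i j i' j' : ℤ) (h : i' < 0 ∨ j' < 0 → i < 0 ∨ j < 0) :
    FFobj K i j →ₗ[K] FFobj K i' j' :=
  (LinearMap.mulLeft K a).restrict (by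
    intro z hz h'
    show a * z = 0
    rw [hz (h h'), mul_zero])

@[simp] theorem FFmul_coe (a : DualNumber K) (i j i' j' : ℤ) (h : i' < 0 ∨ j' < 0 → i < 0 ∨ j < 0)
    (z : FFobj K i j) : (FFmul a i j i' j' h z : DualNumber K) = a * z := rfl

/-- The bigraded module `⨁_{i,j ≥ 0} K[ε]`, on which `x₀`, `y₀` act as `1` and `x₁`, `y₁` as `ε`.
It represents the structure sheaf of the subscheme of length two `Spec K[ε]` of `ℙ¹ × ℙ¹` at the
point `((1:0),(1:0))` in the diagonal direction. -/
noncomputable def FF (K : Type u) [Field K] : BigradedModule K 1 1 where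
  obj i j := ModuleCat.of K (FFobj K i j)
  x k i j := ModuleCat.ofHom (FFmul (ev K (X (Sum.inl k))) i j (i + 1) j (by omega))
  y l i j := ModuleCat.ofHom (FFmul (ev K (X (Sum.inr l))) i j i (j + 1) (by omega))
  xx k k' i j := by
    rw [← ModuleCat.ofHom_comp, ← ModuleCat.ofHom_comp]
    congr 1
    refine LinearMap.ext fun m => Subtype.ext ?_
    simp only [LinearMap.comp_apply, FFmul_coe]
    ring
  yy k k' i j := by
    rw [← ModuleCat.ofHom_comp, ← ModuleCat.ofHom_comp]
    congr 1
    refine LinearMap.ext fun m => Subtype.ext ?_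
    simp only [LinearMap.comp_apply, FFmul_coe]
    ring
  xy k k' i j := by
    rw [← ModuleCat.ofHom_comp, ← ModuleCat.ofHom_comp]
    congr 1
    refine LinearMap.ext fun m => Subtype.ext ?_
    simp only [LinearMap.comp_apply, FFmul_coe]
    ring

/-- `K[ε]` is two-dimensional. -/
noncomputable def dnEquiv (K : Type u) [Field K] : DualNumber K ≃ₗ[K] K × K where
  toFun z := (z.fst, z.snd)
  invFun p := TrivSqZeroExt.inl p.1 + TrivSqZeroExt.inr p.2
  map_add' _ _ := by ext <;> simp
  map_smul' _ _ := by ext <;> simp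
  left_inv z := by ext <;> simp
  right_inv p := by ext <;> simp

instance : Module.Finite K (DualNumber K) := Module.Finite.equiv (dnEquiv K).symm

theorem FF_FG : (FF K).FG := by
  refine ⟨fun i j => ?_, 0, fun i j h => ?_, fun i j h => ?_, fun i j h => ?_⟩
  · show Module.Finite K (FFobj K i j)
    infer_instance
  · show Subsingleton (FFobj K i j)
    constructor
    intro a b
    apply Subtype.ext
    rw [a.2 (by omega), b.2 (by omega)]
  · rintro ⟨z, hz⟩
    refine ⟨fun k => if k = 0 then (⟨z, fun h' => hz (by omega)⟩ : FFobj K i j) else 0, ?_⟩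
    rw [sum_two]
    apply Subtype.ext
    show ev K (X (Sum.inl 0)) * z + ev K (X (Sum.inl 1)) * 0 = z
    rw [ev_x0, one_mul, mul_zero, add_zero]
  · rintro ⟨z, hz⟩
    refine ⟨fun k => if k = 0 then (⟨z, fun h' => hz (by omega)⟩ : FFobj K i j) else 0, ?_⟩
    rw [sum_two]
    apply Subtype.ext
    show ev K (X (Sum.inr 0)) * z + ev K (X (Sum.inr 1)) * 0 = z
    rw [ev_y0, one_mul, mul_zero, add_zero]

/-! ### Elements -/

/-- The family supported at the indices `p` and `p + 1`. -/
noncomputable def build (p : ℤ) (A B : Fin 2 → HS K V) : (ℤ × Fin 2) →₀ HS K V :=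
  Finsupp.onFinset (({p, p + 1} : Finset ℤ) ×ˢ Finset.univ)
    (fun i => if i.1 = p then A i.2 else if i.1 = p + 1 then B i.2 else 0) (by
      intro i hi
      simp only [Finset.mem_product, Finset.mem_insert, Finset.mem_singleton, Finset.mem_univ,
        and_true]
      by_contra hne
      push Not at hne
      apply hi
      rw [if_neg hne.1, if_neg hne.2])

theorem build_apply (p : ℤ) (A B : Fin 2 → HS K V) (i : ℤ × Fin 2) :
    build p A B i = if i.1 = p then A i.2 else if i.1 = p + 1 then B i.2 else 0 := rfl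

theorem mem_tautTerm {c : ℤ × ℤ} {d : ℤ} {r : ℤ × ℤ} {m : (ℤ × Fin 2) →₀ HS K V} :
    (TT b).InTautTerm (xs K 1 1) (CoxPiece K 1 1) c d r m ↔
      ∀ i : ℤ × Fin 2, m i ∈ tautPiece b (i.1 + c.1, -d - i.1 + c.2) r := Iff.rfl

section

variable {c : ℤ × ℤ} {e : ℤ} {r : ℤ × ℤ} {m : (ℤ × Fin 2) →₀ HS K V}

theorem zero_of_ne (hm : (TT b).InTautTerm (xs K 1 1) (CoxPiece K 1 1) c e r m) (i : ℤ × Fin 2) (h1 : i.1 ≠ -c.1)
    (h2 : i.1 ≠ -c.1 + 1) : m i = 0 := by
  apply eq_zero_of_out (mem_tautTerm.mp hm i)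
  show i.1 + c.1 < 0 ∨ 1 < i.1 + c.1 ∨ -e - i.1 + c.2 < 0 ∨ 1 < -e - i.1 + c.2
  omega

theorem zero_of_snd (hm : (TT b).InTautTerm (xs K 1 1) (CoxPiece K 1 1) c e r m) (i : ℤ × Fin 2)
    (h : -e - i.1 + c.2 < 0 ∨ 1 < -e - i.1 + c.2) : m i = 0 := by
  apply eq_zero_of_out (mem_tautTerm.mp hm i)
  show i.1 + c.1 < 0 ∨ 1 < i.1 + c.1 ∨ -e - i.1 + c.2 < 0 ∨ 1 < -e - i.1 + c.2
  omega

theorem eq_zero_out (hm : (TT b).InTautTerm (xs K 1 1) (CoxPiece K 1 1) c e r m)
    (h : c.1 + c.2 - e < 0 ∨ 2 < c.1 + c.2 - e) : m = 0 := by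
  ext1 i
  by_cases h1 : i.1 = -c.1
  · exact zero_of_snd hm i (by omega)
  · by_cases h2 : i.1 = -c.1 + 1
    · exact zero_of_snd hm i (by omega)
    · exact zero_of_ne hm i h1 h2

theorem diff_fst (d : ℤ) (m : (ℤ × Fin 2) →₀ HS K V) (p : ℤ) :
    (TT b).diff d m (p, 0) = act (vec b (Sum.inl 0)) (m (p + 1, 0)) +
      act (vec b (Sum.inr 0)) (m (p, 0)) := by
  rw [diff_apply]
  simp only [uu, vv, act_zero, add_zero]

theorem diff_snd (d : ℤ) (m : (ℤ × Fin 2) →₀ HS K V) (p : ℤ) :
    (TT b).diff d m (p, 1) =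
      (act (vec b (Sum.inl 1)) (m (p + 1, 0)) + act (vec b (Sum.inl 0)) (m (p + 1, 1))) +
      (act (vec b (Sum.inr 1)) (m (p, 0)) + act (vec b (Sum.inr 0)) (m (p, 1))) := by
  rw [diff_apply]
  simp only [uu, vv]

theorem eq_zero_two (hm : (TT b).InTautTerm (xs K 1 1) (CoxPiece K 1 1) c e r m) (h : c.1 + c.2 - e = 2)
    (hd : (TT b).diff e m = 0) : m = 0 := by
  have h11 : ∀ k, m (-c.1 + 1, k) ∈ tautPiece b (1, 1) r := by
    intro k
    have := mem_tautTerm.mp hm (-c.1 + 1, k)
    have e1 : ((-c.1 + 1, k) : ℤ × Fin 2).1 + c.1 = 1 := by simp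
    have e2 : -e - ((-c.1 + 1, k) : ℤ × Fin 2).1 + c.2 = 1 := by
      show -e - (-c.1 + 1) + c.2 = 1
      omega
    rwa [e1, e2] at this
  have hz : ∀ k, m (-c.1, k) = 0 := fun k =>
    zero_of_snd hm (-c.1, k) (by show -e - (-c.1) + c.2 < 0 ∨ 1 < -e - (-c.1) + c.2; omega)
  have h0 : m (-c.1 + 1, 0) = 0 := by
    apply taut_11 (h11 0)
    have := congrFun hd (-c.1, 0)
    rw [diff_fst, hz, map_zero, add_zero] at this
    exact this
  have h1 : m (-c.1 + 1, 1) = 0 := by
    apply taut_11 (h11 1)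
    have := congrFun hd (-c.1, 1)
    rw [diff_snd, hz, hz, h0, map_zero, map_zero, map_zero, add_zero, add_zero, zero_add] at this
    exact this
  ext1 ⟨i, k⟩
  by_cases hi : i = -c.1
  · rw [hi]
    exact hz k
  · by_cases hi' : i = -c.1 + 1
    · rw [hi']
      fin_cases k
      · exact h0
      · exact h1
    · exact zero_of_ne hm _ hi hi'

/-- The element of `T^{e-1}` with the given coordinates. -/
theorem ext_build {p : ℤ} {A B : Fin 2 → HS K V} (h1 : ∀ k, m (p, k) = A k)
    (h2 : ∀ k, m (p + 1, k) = B k) (h3 : ∀ i : ℤ × Fin 2, i.1 ≠ p → i.1 ≠ p + 1 → m i = 0) :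
    m = build p A B := by
  ext1 ⟨i, k⟩
  rw [build_apply]
  by_cases hi : i = p
  · rw [if_pos hi, hi]
    exact h1 k
  · rw [if_neg hi]
    by_cases hi' : i = p + 1
    · rw [if_pos hi', hi']
      exact h2 k
    · rw [if_neg hi']
      exact h3 _ hi hi'

theorem exact_one {d : ℤ} (hde : e = d + 1) (hm : (TT b).InTautTerm (xs K 1 1) (CoxPiece K 1 1) c e r m)
    (h : c.1 + c.2 - e = 1) (hd : (TT b).diff e m = 0) :
    ∃ m' : (ℤ × Fin 2) →₀ HS K V, (TT b).InTautTerm (xs K 1 1) (CoxPiece K 1 1) c d r m' ∧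
      ∀ j : ℤ × Fin 2, (TT b).diff d m' j = m j := by
  have h01 : ∀ k, m (-c.1, k) ∈ tautPiece b (0, 1) r := by
    intro k
    have := mem_tautTerm.mp hm (-c.1, k)
    have e1 : ((-c.1, k) : ℤ × Fin 2).1 + c.1 = 0 := by simp
    have e2 : -e - ((-c.1, k) : ℤ × Fin 2).1 + c.2 = 1 := by
      show -e - (-c.1) + c.2 = 1
      omega
    rwa [e1, e2] at this
  have h10 : ∀ k, m (-c.1 + 1, k) ∈ tautPiece b (1, 0) r := by
    intro k
    have := mem_tautTerm.mp hm (-c.1 + 1, k)
    have e1 : ((-c.1 + 1, k) : ℤ × Fin 2).1 + c.1 = 1 := by simp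
    have e2 : -e - ((-c.1 + 1, k) : ℤ × Fin 2).1 + c.2 = 0 := by
      show -e - (-c.1 + 1) + c.2 = 0
      omega
    rwa [e1, e2] at this
  obtain ⟨b0, hb0, hmb0⟩ := taut_01 (h01 0)
  obtain ⟨b1, hb1, hmb1⟩ := taut_01 (h01 1)
  obtain ⟨a0, ha0, hma0⟩ := taut_10 (h10 0)
  obtain ⟨a1, ha1, hma1⟩ := taut_10 (h10 1)
  have hd' : ∀ j : ℤ × Fin 2, (TT b).diff e m j = 0 := fun j => congrFun hd j
  have hd0 := hd' (-c.1, 0)
  have hd1 := hd' (-c.1, 1)
  rw [diff_fst, hma0, hmb0, e0_kap1, f0_kap2, act_vec_aug, act_vec_aug, map_zero, map_zero,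
    sub_zero, sub_zero] at hd0
  rw [diff_snd, hma0, hmb0, hma1, hmb1, e1_kap1, e0_kap1, f1_kap2, f0_kap2] at hd1
  simp only [act_vec_aug, map_zero, sub_zero] at hd1
  have hd0' : x1 * a0 + y1 * b0 = 0 := by
    have := LinearMap.congr_fun hd0 1
    simpa [aug_one] using this
  have hd1' : (x1 * a1 - x0 * a0) + (y1 * b1 - y0 * b0) = 0 := by
    have := LinearMap.congr_fun hd1 1
    simp only [LinearMap.add_apply, LinearMap.neg_apply, LinearMap.smul_apply, aug_one,
      smul_eq_mul, LinearMap.zero_apply] at this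
    linear_combination this
  obtain ⟨g0, g1, hg1, hg2, hg3, hg4⟩ := koszul_middle hd0' hd1'
  have hrr : r - (1, 0) - (0, 1) = r - (0, 1) - (1, 0) := by abel
  have hg0m : g0 ∈ CoxPiece K 1 1 (r - (1, 0) - (0, 1)) := by
    rw [hrr]
    apply mem_of_X_mul (j := Sum.inl 1)
    have : X (Sum.inl 1) * g0 = - b0 := by rw [hg3, neg_neg]
    rw [this]
    exact neg_mem hb0
  have hg1m : g1 ∈ CoxPiece K 1 1 (r - (1, 0) - (0, 1)) := by
    rw [hrr]
    apply mem_of_X_mul (j := Sum.inl 1)
    have : X (Sum.inl 1) * g1 = x0 * g0 - b1 := by rw [hg4]; ring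
    rw [this]
    refine sub_mem ?_ hb1
    have := X_mul_mem (j := Sum.inl 0) hg0m
    have e3 : wt 1 1 (Sum.inl 0) + (r - (1, 0) - (0, 1)) = r - (0, 1) := by
      show (1, 0) + (r - (1, 0) - (0, 1)) = r - (0, 1)
      abel
    rwa [e3] at this
  refine ⟨build (-c.1) 0 (fun k => if k = 0 then - kap1 b (kap2 b (aug K 1 1 V g0)) else
    - kap1 b (kap2 b (aug K 1 1 V g1))), ?_, ?_⟩
  · refine mem_tautTerm.mpr ?_
    rintro ⟨i, k⟩
    rw [build_apply]
    by_cases hi : i = -c.1
    · rw [if_pos hi]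
      exact zero_mem _
    · rw [if_neg hi]
      by_cases hi' : i = -c.1 + 1
      · rw [if_pos hi']
        have e1 : ((i, k) : ℤ × Fin 2).1 + c.1 = 1 := by
          show i + c.1 = 1
          omega
        have e2 : -d - ((i, k) : ℤ × Fin 2).1 + c.2 = 1 := by
          show -d - i + c.2 = 1
          omega
        rw [e1, e2]
        split_ifs
        · exact neg_mem (kap12_mem hg0m)
        · exact neg_mem (kap12_mem hg1m)
      · rw [if_neg hi']
        exact zero_mem _
  · rintro ⟨i, k⟩
    have hn1 : ¬ (-c.1 + 1 = -c.1) := by omega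
    have hn2 : ¬ (-c.1 + 1 + 1 = -c.1) := by omega
    have hn3 : ¬ (-c.1 + 1 + 1 = -c.1 + 1) := by omega
    by_cases hi : i = -c.1
    · subst hi
      fin_cases k
      · show (TT b).diff d _ (-c.1, 0) = m (-c.1, 0)
        rw [diff_fst, build_apply, build_apply]
        simp only [hn1, if_false, if_true, Pi.zero_apply, map_zero, add_zero, map_neg]
        rw [e0_kap1, e_kap2, act_vec_aug, map_zero, neg_zero, map_zero, sub_zero, hmb0, hg3,
          map_neg, ← smul_eq_mul, map_smul, map_neg, map_smul]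
      · show (TT b).diff d _ (-c.1, 1) = m (-c.1, 1)
        rw [diff_snd, build_apply, build_apply, build_apply, build_apply]
        simp only [hn1, if_false, if_true, Pi.zero_apply, map_zero, add_zero, map_neg,
          one_ne_zero]
        rw [e1_kap1, e0_kap1, e_kap2, e_kap2, act_vec_aug, act_vec_aug, map_zero, neg_zero,
          map_zero, sub_zero, sub_zero, hmb1, hg4, map_neg, map_sub, ← smul_eq_mul,
          ← smul_eq_mul, map_smul, map_smul, map_neg, map_sub, map_smul, map_smul]
        abel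
    · by_cases hi' : i = -c.1 + 1
      · subst hi'
        fin_cases k
        · show (TT b).diff d _ (-c.1 + 1, 0) = m (-c.1 + 1, 0)
          rw [diff_fst, build_apply, build_apply]
          simp only [hn1, hn2, hn3, if_false, if_true, map_zero, zero_add, map_neg]
          rw [f_kap1, f0_kap2, act_vec_aug, map_zero, sub_zero, neg_neg, hma0, hg1,
            ← smul_eq_mul, map_smul, map_smul, map_smul]
        · show (TT b).diff d _ (-c.1 + 1, 1) = m (-c.1 + 1, 1)
          rw [diff_snd, build_apply, build_apply, build_apply, build_apply]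
          simp only [hn1, hn2, hn3, if_false, if_true, map_zero, zero_add, map_neg,
            one_ne_zero]
          rw [f_kap1, f_kap1, f1_kap2, f0_kap2, act_vec_aug, act_vec_aug, map_zero,
            sub_zero, sub_zero, hma1, hg2, map_sub, ← smul_eq_mul,
            ← smul_eq_mul, map_smul, map_smul, map_neg, map_smul, map_smul, map_sub, map_smul,
            map_smul]
          abel
      · have hmz : m (i, k) = 0 := zero_of_ne hm _ hi hi'
        rw [hmz, diff_apply]
        have hz : ∀ k, build (-c.1) 0 (fun k => if k = 0 then - kap1 b (kap2 b (aug K 1 1 V g0)) else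
            - kap1 b (kap2 b (aug K 1 1 V g1))) (i, k) = 0 := by
          intro k
          rw [build_apply, if_neg hi, if_neg hi']
        have hz' : ∀ k, build (-c.1) 0 (fun k => if k = 0 then - kap1 b (kap2 b (aug K 1 1 V g0)) else
            - kap1 b (kap2 b (aug K 1 1 V g1))) (i + 1, k) = 0 := by
          intro k
          rw [build_apply]
          by_cases hi2 : i + 1 = -c.1
          · rw [if_pos hi2]
            rfl
          · rw [if_neg hi2, if_neg (show ¬ (i + 1 = -c.1 + 1) by omega)]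
        simp only [hz, hz', map_zero, add_zero]

/-- The part of the differential which lands in the summands `ω_E(a)` with `a + c = (0, 0)`. -/
theorem image_iff {d : ℤ} (hde : e = d + 1) (hm : (TT b).InTautTerm (xs K 1 1) (CoxPiece K 1 1) c e r m)
    (h : e = c.1 + c.2) :
    (∃ m' : (ℤ × Fin 2) →₀ HS K V, (TT b).InTautTerm (xs K 1 1) (CoxPiece K 1 1) c d r m' ∧
      ∀ j : ℤ × Fin 2, (TT b).diff d m' j = m j) ↔
      ((m (-c.1, 0) 1, m (-c.1, 1) 1) : S K × S K) ∈ bdry K r := by
  constructor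
  · rintro ⟨m', hm', hj⟩
    have h01 : ∀ k, m' (-c.1, k) ∈ tautPiece b (0, 1) r := by
      intro k
      have := mem_tautTerm.mp hm' (-c.1, k)
      have e1 : ((-c.1, k) : ℤ × Fin 2).1 + c.1 = 0 := by simp
      have e2 : -d - ((-c.1, k) : ℤ × Fin 2).1 + c.2 = 1 := by
        show -d - (-c.1) + c.2 = 1
        omega
      rwa [e1, e2] at this
    have h10 : ∀ k, m' (-c.1 + 1, k) ∈ tautPiece b (1, 0) r := by
      intro k
      have := mem_tautTerm.mp hm' (-c.1 + 1, k)
      have e1 : ((-c.1 + 1, k) : ℤ × Fin 2).1 + c.1 = 1 := by simp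
      have e2 : -d - ((-c.1 + 1, k) : ℤ × Fin 2).1 + c.2 = 0 := by
        show -d - (-c.1 + 1) + c.2 = 0
        omega
      rwa [e1, e2] at this
    obtain ⟨b0, hb0, hmb0⟩ := taut_01 (h01 0)
    obtain ⟨b1, hb1, hmb1⟩ := taut_01 (h01 1)
    obtain ⟨a0, ha0, hma0⟩ := taut_10 (h10 0)
    obtain ⟨a1, ha1, hma1⟩ := taut_10 (h10 1)
    have hd0 := hj (-c.1, 0)
    have hd1 := hj (-c.1, 1)
    rw [diff_fst, hma0, hmb0, e0_kap1, f0_kap2, act_vec_aug, act_vec_aug, map_zero, map_zero,
      sub_zero, sub_zero] at hd0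
    rw [diff_snd, hma0, hmb0, hma1, hmb1, e1_kap1, e0_kap1, f1_kap2, f0_kap2] at hd1
    simp only [act_vec_aug, map_zero, sub_zero] at hd1
    refine ⟨a0, ha0, a1, ha1, b0, hb0, b1, hb1, ?_, ?_⟩
    · show m (-c.1, 0) 1 = _
      rw [← hd0]
      simp only [LinearMap.add_apply, LinearMap.smul_apply, aug_one, smul_eq_mul]
    · show m (-c.1, 1) 1 = _
      rw [← hd1]
      simp only [LinearMap.add_apply, LinearMap.neg_apply, LinearMap.smul_apply, aug_one,
        smul_eq_mul]
      ring
  · rintro ⟨a0, ha0, a1, ha1, b0, hb0, b1, hb1, h1, h2⟩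
    have h00 : ∀ k, m (-c.1, k) ∈ tautPiece b (0, 0) r := by
      intro k
      have := mem_tautTerm.mp hm (-c.1, k)
      have e1 : ((-c.1, k) : ℤ × Fin 2).1 + c.1 = 0 := by simp
      have e2 : -e - ((-c.1, k) : ℤ × Fin 2).1 + c.2 = 0 := by
        show -e - (-c.1) + c.2 = 0
        omega
      rwa [e1, e2] at this
    have hz : ∀ i : ℤ × Fin 2, i.1 ≠ -c.1 → m i = 0 := by
      intro i hi
      by_cases hi' : i.1 = -c.1 + 1
      · exact zero_of_snd hm i (by omega)
      · exact zero_of_ne hm i hi hi'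
    change m (-c.1, 0) 1 = x1 * a0 + y1 * b0 at h1
    change m (-c.1, 1) 1 = (x1 * a1 - x0 * a0) + (y1 * b1 - y0 * b0) at h2
    refine ⟨build (-c.1) (fun k => if k = 0 then kap2 b (aug K 1 1 V b0) else
      kap2 b (aug K 1 1 V b1)) (fun k => if k = 0 then kap1 b (aug K 1 1 V a0) else
      kap1 b (aug K 1 1 V a1)), ?_, ?_⟩
    · refine mem_tautTerm.mpr ?_
      rintro ⟨i, k⟩
      rw [build_apply]
      by_cases hi : i = -c.1
      · rw [if_pos hi]
        have e1 : ((i, k) : ℤ × Fin 2).1 + c.1 = 0 := by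
          show i + c.1 = 0
          omega
        have e2 : -d - ((i, k) : ℤ × Fin 2).1 + c.2 = 1 := by
          show -d - i + c.2 = 1
          omega
        rw [e1, e2]
        show (if k = 0 then kap2 b (aug K 1 1 V b0) else kap2 b (aug K 1 1 V b1)) ∈ _
        split_ifs
        · exact kap2_aug_mem hb0
        · exact kap2_aug_mem hb1
      · rw [if_neg hi]
        by_cases hi' : i = -c.1 + 1
        · rw [if_pos hi']
          have e1 : ((i, k) : ℤ × Fin 2).1 + c.1 = 1 := by
            show i + c.1 = 1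
            omega
          have e2 : -d - ((i, k) : ℤ × Fin 2).1 + c.2 = 0 := by
            show -d - i + c.2 = 0
            omega
          rw [e1, e2]
          show (if k = 0 then kap1 b (aug K 1 1 V a0) else kap1 b (aug K 1 1 V a1)) ∈ _
          split_ifs
          · exact kap1_aug_mem ha0
          · exact kap1_aug_mem ha1
        · rw [if_neg hi']
          exact zero_mem _
    · have hn1 : ¬ (-c.1 + 1 = -c.1) := by omega
      rintro ⟨i, k⟩
      by_cases hi : i = -c.1
      · subst hi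
        fin_cases k
        · show (TT b).diff d _ (-c.1, 0) = m (-c.1, 0)
          rw [diff_fst, build_apply, build_apply, eq_aug (h00 0), h1]
          simp only [hn1, if_false, if_true]
          rw [e0_kap1, f0_kap2, act_vec_aug, act_vec_aug, map_zero, map_zero, sub_zero, sub_zero,
            map_add, ← smul_eq_mul, ← smul_eq_mul, map_smul, map_smul]
        · show (TT b).diff d _ (-c.1, 1) = m (-c.1, 1)
          rw [diff_snd, build_apply, build_apply, build_apply, build_apply, eq_aug (h00 1), h2]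
          simp only [hn1, if_false, if_true, one_ne_zero]
          rw [e1_kap1, e0_kap1, f1_kap2, f0_kap2]
          simp only [act_vec_aug, map_zero, sub_zero, map_add, map_sub, ← smul_eq_mul, map_smul]
          abel
      · rw [hz (i, k) hi]
        by_cases hi' : i = -c.1 + 1
        · subst hi'
          have hn2 : ¬ (-c.1 + 1 + 1 = -c.1) := by omega
          have hn3 : ¬ (-c.1 + 1 + 1 = -c.1 + 1) := by omega
          fin_cases k
          · show (TT b).diff d _ (-c.1 + 1, 0) = 0
            rw [diff_fst, build_apply, build_apply]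
            simp only [hn1, hn2, hn3, if_false, if_true, map_zero, zero_add]
            rw [f_kap1, act_vec_aug, map_zero, neg_zero]
          · show (TT b).diff d _ (-c.1 + 1, 1) = 0
            rw [diff_snd, build_apply, build_apply, build_apply, build_apply]
            simp only [hn1, hn2, hn3, if_false, if_true, map_zero, zero_add, one_ne_zero]
            rw [f_kap1, f_kap1, act_vec_aug, act_vec_aug, map_zero, neg_zero, add_zero]
        · by_cases hi2 : i + 1 = -c.1
          · fin_cases k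
            · show (TT b).diff d _ (i, 0) = 0
              rw [diff_fst, build_apply, build_apply]
              simp only [hi, hi', hi2, if_false, if_true, map_zero, add_zero]
              rw [e_kap2, act_vec_aug, map_zero, neg_zero]
            · show (TT b).diff d _ (i, 1) = 0
              rw [diff_snd, build_apply, build_apply, build_apply, build_apply]
              simp only [hi, hi', hi2, if_false, if_true, map_zero, add_zero, one_ne_zero]
              rw [e_kap2, e_kap2, act_vec_aug, act_vec_aug, map_zero, neg_zero, add_zero]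
          · have hi3 : ¬ (i + 1 = -c.1 + 1) := by omega
            rw [diff_apply]
            simp only [build_apply, hi, hi', hi2, hi3, if_false, map_zero, add_zero]

end

/-! ### The identification of the cohomology -/

/-- The identification of the cohomology. -/
noncomputable def psiMap (K : Type u) [Field K] (V : Type u) [AddCommGroup V] [Module K V]
    (c : ℤ × ℤ) :
    ((ℤ × Fin 2) →₀ HS K V) →ₗ[K] DualNumber K where
  toFun m := psi (m (-c.1, 0) 1, m (-c.1, 1) 1)
  map_add' m m' := by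
    unfold psi
    simp only [Finsupp.add_apply, LinearMap.add_apply, map_add]
    ring
  map_smul' s m := by
    unfold psi
    simp only [Finsupp.smul_apply, LinearMap.smul_apply, map_smul, RingHom.id_apply, smul_add,
      mul_smul_comm]

/-- The identification of the cohomology, in degree `(s₁, s₂)`. -/
noncomputable def psiF (K : Type u) [Field K] (V : Type u) [AddCommGroup V] [Module K V]
    (c : ℤ × ℤ) (s₁ s₂ : ℤ) :
    ((ℤ × Fin 2) →₀ HS K V) →ₗ[K] FFobj K s₁ s₂ :=
  if h : 0 ≤ s₁ ∧ 0 ≤ s₂ then (psiMap K V c).codRestrict _ (fun _ => FFobj_top h.1 h.2 _) else 0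

theorem psiF_coe (c : ℤ × ℤ) {s₁ s₂ : ℤ} (h1 : 0 ≤ s₁) (h2 : 0 ≤ s₂)
    (m : (ℤ × Fin 2) →₀ HS K V) :
    (psiF K V c s₁ s₂ m : DualNumber K) = psi (m (-c.1, 0) 1, m (-c.1, 1) 1) := by
  unfold psiF
  rw [dif_pos ⟨h1, h2⟩]
  rfl

theorem psi_smul (s : S K) (G : S K × S K) : psi (s * G.1, s * G.2) = ev K s * psi G := by
  unfold psi
  simp only [map_mul]
  ring

theorem psiF_x (c : ℤ × ℤ) {s₁ s₂ : ℤ} (h1 : 0 ≤ s₁) (h2 : 0 ≤ s₂) (k : Fin 2)
    (m : (ℤ × Fin 2) →₀ HS K V) :
    psiF K V c (s₁ + 1) s₂ ((X (Sum.inl k) : S K) • m) =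
      FFmul (ev K (X (Sum.inl k))) s₁ s₂ (s₁ + 1) s₂ (by omega) (psiF K V c s₁ s₂ m) := by
  apply Subtype.ext
  rw [psiF_coe c (by omega) h2, FFmul_coe, psiF_coe c h1 h2, ← psi_smul]
  simp only [Finsupp.smul_apply, LinearMap.smul_apply, smul_eq_mul]

theorem psiF_y (c : ℤ × ℤ) {s₁ s₂ : ℤ} (h1 : 0 ≤ s₁) (h2 : 0 ≤ s₂) (k : Fin 2)
    (m : (ℤ × Fin 2) →₀ HS K V) :
    psiF K V c s₁ (s₂ + 1) ((X (Sum.inr k) : S K) • m) =
      FFmul (ev K (X (Sum.inr k))) s₁ s₂ s₁ (s₂ + 1) (by omega) (psiF K V c s₁ s₂ m) := by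
  apply Subtype.ext
  rw [psiF_coe c h1 (by omega), FFmul_coe, psiF_coe c h1 h2, ← psi_smul]
  simp only [Finsupp.smul_apply, LinearMap.smul_apply, smul_eq_mul]

theorem TT_isMonadFor (c : ℤ × ℤ) :
    (TT b).IsMonadFor (xs K 1 1) (CoxPiece K 1 1) c (FF K) := by
  refine ⟨max 0 (max c.1 c.2), fun d => ⟨?_, ?_⟩⟩
  · intro hd r₁ r₂ _ _ m hmm
    change (ℤ × Fin 2) →₀ HS K V at m
    obtain ⟨hm, hdm⟩ := hmm
    by_cases h1 : c.1 + c.2 - (d + 1) = 1
    · obtain ⟨m', hm', h⟩ := exact_one rfl hm h1 hdm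
      exact ⟨m', hm', funext h⟩
    · by_cases h2 : c.1 + c.2 - (d + 1) = 2
      · have := eq_zero_two hm h2 hdm
        subst this
        refine ⟨0, fun i => zero_mem (tautPiece b _ _), ?_⟩
        funext j
        exact (diff_apply d 0 j).trans (by
          simp only [Finsupp.coe_zero, Pi.zero_apply, map_zero, add_zero]; rfl)
      · have := eq_zero_out hm (by omega)
        subst this
        refine ⟨0, fun i => zero_mem (tautPiece b _ _), ?_⟩
        funext j
        exact (diff_apply d 0 j).trans (by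
          simp only [Finsupp.coe_zero, Pi.zero_apply, map_zero, add_zero]; rfl)
  · intro hd
    refine ⟨fun s₁ s₂ => psiF K V c s₁ s₂, fun s₁ s₂ hs₁ hs₂ => ?_⟩
    have h1 : 0 ≤ s₁ := le_trans (le_max_left _ _) hs₁
    have h2 : 0 ≤ s₂ := le_trans (le_max_left _ _) hs₂
    have h3 : 0 ≤ s₁ - c.1 := by
      have := le_trans (le_trans (le_max_left c.1 c.2) (le_max_right 0 _)) hs₁
      omega
    have h4 : 0 ≤ s₂ - c.2 := by
      have := le_trans (le_trans (le_max_right c.1 c.2) (le_max_right 0 _)) hs₂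
      omega
    refine ⟨LinearMap.isLinear _, ?_, ?_⟩
    · intro z
      change FFobj K s₁ s₂ at z
      set G : Fin 2 → S K := fun k => if k = 0 then z.1.fst • base K (s₁ - c.1, s₂ - c.2) else
        z.1.snd • base K (s₁ - c.1, s₂ - c.2) with hG
      have hGm : ∀ k, G k ∈ CoxPiece K 1 1 (s₁ - c.1, s₂ - c.2) := by
        intro k
        rw [hG]
        show (if k = 0 then _ else _) ∈ _
        split_ifs
        · exact Submodule.smul_mem _ _ (base_mem h3 h4)
        · exact Submodule.smul_mem _ _ (base_mem h3 h4)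
      refine ⟨build (-c.1) (fun k => aug K 1 1 V (G k)) 0, ⟨?_, ?_⟩, ?_⟩
      · refine mem_tautTerm.mpr ?_
        rintro ⟨i, k⟩
        rw [build_apply]
        by_cases hi : i = -c.1
        · rw [if_pos hi]
          have e1 : ((i, k) : ℤ × Fin 2).1 + c.1 = 0 := by
            show i + c.1 = 0
            omega
          have e2 : -(d + 1) - ((i, k) : ℤ × Fin 2).1 + c.2 = 0 := by
            show -(d + 1) - i + c.2 = 0
            omega
          rw [e1, e2]
          exact aug_mem (hGm k)
        · rw [if_neg hi]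
          split_ifs
          · exact zero_mem _
          · exact zero_mem _
      · funext ⟨j, l⟩
        have hb : ∀ i : ℤ × Fin 2, ∃ g, build (-c.1) (fun k => aug K 1 1 V (G k)) 0 i =
            aug K 1 1 V g := by
          intro i
          rw [build_apply]
          split_ifs
          · exact ⟨_, rfl⟩
          · exact ⟨0, (map_zero _).symm⟩
          · exact ⟨0, (map_zero _).symm⟩
        obtain ⟨g1, hg1⟩ := hb (j + 1, 0)
        obtain ⟨g2, hg2⟩ := hb (j + 1, 1)
        obtain ⟨g3, hg3⟩ := hb (j, 0)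
        obtain ⟨g4, hg4⟩ := hb (j, 1)
        fin_cases l
        · refine (diff_fst (d + 1) _ j).trans ?_
          rw [hg1, hg3, act_vec_aug, act_vec_aug, add_zero]
          rfl
        · refine (diff_snd (d + 1) _ j).trans ?_
          rw [hg1, hg2, hg3, hg4, act_vec_aug, act_vec_aug, act_vec_aug, act_vec_aug, add_zero,
            add_zero]
          rfl
      · apply Subtype.ext
        refine (psiF_coe c h1 h2 _).trans ?_
        rw [build_apply, build_apply]
        simp only [if_true, aug_one, hG, one_ne_zero, if_false]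
        unfold psi base
        ext
        · simp
        · simp
    · intro m hmm
      change (ℤ × Fin 2) →₀ HS K V at m
      have hm := hmm.1
      refine ⟨?_, fun k => psiF_x c h1 h2 k m, fun k => psiF_y c h1 h2 k m⟩
      have h00 : ∀ k, m (-c.1, k) ∈ tautPiece b (0, 0) (s₁ - c.1, s₂ - c.2) := by
        intro k
        have := mem_tautTerm.mp hm (-c.1, k)
        have e1 : ((-c.1, k) : ℤ × Fin 2).1 + c.1 = 0 := by simp
        have e2 : -(d + 1) - ((-c.1, k) : ℤ × Fin 2).1 + c.2 = 0 := by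
          show -(d + 1) - (-c.1) + c.2 = 0
          omega
        rwa [e1, e2] at this
      have key := image_iff rfl hm hd
      constructor
      · intro h
        have h' : psi (m (-c.1, 0) 1, m (-c.1, 1) 1) = 0 :=
          (psiF_coe c h1 h2 m).symm.trans (congrArg Subtype.val h)
        obtain ⟨m', hm', hj⟩ := key.mpr
          (psi_eq_zero (apply_one_mem (h00 0)) (apply_one_mem (h00 1)) h')
        exact ⟨m', hm', funext hj⟩
      · rintro ⟨m', hm', hj⟩
        have h' := key.mp ⟨m', hm', fun j => congrFun hj j⟩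
        apply Subtype.ext
        exact (psiF_coe c h1 h2 m).trans (psi_bdry h')

end Pool.Agent.MP_df5a96_ag.General
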