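import Pool.Agent.MP_df5a96_ag.General.Monad

/-!
# The sheaf is not a direct sum of box products
-/

open MvPolynomial
open scoped TensorProduct

namespace Pool.Agent.MP_df5a96_ag.General

universe u

variable {K : Type u} [Field K]

section tensor

variable {P P' Q Q' : Type u} [AddCommGroup P] [Module K P] [AddCommGroup P'] [Module K P']
  [AddCommGroup Q] [Module K Q] [AddCommGroup Q'] [Module K Q']

theorem exists_tmul {p : P} (hp : ∀ w : P, ∃ c : K, c • p = w) (t : P ⊗[K] Q) :
    ∃ q : Q, t = p ⊗ₜ[K] q := by
  induction t using TensorProduct.induction_on with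
  | zero => exact ⟨0, by rw [TensorProduct.tmul_zero]⟩
  | tmul a b =>
    obtain ⟨c, rfl⟩ := hp a
    exact ⟨c • b, by rw [TensorProduct.smul_tmul]⟩
  | add a b ha hb =>
    obtain ⟨q, rfl⟩ := ha
    obtain ⟨q', rfl⟩ := hb
    exact ⟨q + q', by rw [TensorProduct.tmul_add]⟩

theorem eq_zero_of_tmul {a : P} {q : Q} (hq : q ≠ 0) (h : a ⊗ₜ[K] q = 0) : a = 0 := by
  obtain ⟨g, hg⟩ := Module.Projective.exists_dual_ne_zero K hq
  have h1 := congrArg (fun z => TensorProduct.rid K P (LinearMap.lTensor P g z)) h
  simp only [LinearMap.lTensor_tmul, TensorProduct.rid_tmul, map_zero] at h1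
  exact (smul_eq_zero.mp h1).resolve_left hg

theorem core_left [Module.Finite K P] (x0 x1 : P →ₗ[K] P') (u v : P ⊗[K] Q)
    (hdim : Module.finrank K P ≤ 1)
    (hinj : ∀ w, LinearMap.rTensor Q x0 w = 0 → w = 0)
    (h1 : LinearMap.rTensor Q x1 v = LinearMap.rTensor Q x0 u)
    (h2 : LinearMap.rTensor Q x1 u = 0) : u = 0 := by
  obtain ⟨p, hp⟩ := finrank_le_one_iff.mp hdim
  obtain ⟨q, rfl⟩ := exists_tmul hp v
  obtain ⟨q', rfl⟩ := exists_tmul hp u
  rw [LinearMap.rTensor_tmul] at h2
  by_cases hq : q' = 0
  · rw [hq, TensorProduct.tmul_zero]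
  · apply hinj
    rw [← h1, LinearMap.rTensor_tmul, eq_zero_of_tmul hq h2, TensorProduct.zero_tmul]

theorem core_right [Module.Finite K Q] (y0 y1 : Q →ₗ[K] Q') (u v : P ⊗[K] Q)
    (hdim : Module.finrank K Q ≤ 1)
    (hinj : ∀ w, LinearMap.lTensor P y0 w = 0 → w = 0)
    (h1 : LinearMap.lTensor P y1 v = LinearMap.lTensor P y0 u)
    (h2 : LinearMap.lTensor P y1 u = 0) : u = 0 := by
  have hc : ∀ (y : Q →ₗ[K] Q') (w : P ⊗[K] Q), TensorProduct.comm K P Q' (LinearMap.lTensor P y w) =
      LinearMap.rTensor P y (TensorProduct.comm K P Q w) := by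
    intro y w
    induction w using TensorProduct.induction_on with
    | zero => simp
    | tmul a b => simp
    | add a b ha hb => simp only [map_add, ha, hb]
  have key : TensorProduct.comm K P Q u = 0 := by
    apply core_left y0 y1 _ (TensorProduct.comm K P Q v) hdim
    · intro w hw
      have h3 : TensorProduct.comm K P Q' (LinearMap.lTensor P y0 ((TensorProduct.comm K P Q).symm w))
          = 0 := by
        rw [hc, LinearEquiv.apply_symm_apply, hw]
      have h4 := hinj _ ((LinearEquiv.map_eq_zero_iff _).mp h3)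
      exact (LinearEquiv.map_eq_zero_iff _).mp h4
    · rw [← hc, ← hc, h1]
    · rw [← hc, h2, map_zero]
  exact (LinearEquiv.map_eq_zero_iff _).mp key

end tensor

theorem finrank_FFobj {i j : ℤ} (hi : 0 ≤ i) (hj : 0 ≤ j) : Module.finrank K (FFobj K i j) = 2 := by
  have : FFobj K i j = ⊤ := by
    rw [eq_top_iff]
    intro z _
    exact FFobj_top hi hj z
  rw [this, finrank_top, LinearEquiv.finrank_eq (dnEquiv K)]
  simp

theorem FF_not_sum : ¬ IsSumOfBoxProducts (FF K) := by
  rintro ⟨s, P, Q, hP, hQ, N, f, hf⟩
  classical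
  have hfin : ∀ t i, Module.Finite K ((P t).obj i) := fun t i => (hP t).1 i
  have hfin' : ∀ t i, Module.Finite K ((Q t).obj i) := fun t i => (hQ t).1 i
  set n : ℤ := max N 0 with hn
  have hnN : N ≤ n := le_max_left _ _
  have hn0 : 0 ≤ n := le_max_right _ _
  -- the isomorphisms, in plain terms
  let g : ∀ i j, FFobj K i j →ₗ[K] (∀ t, (P t).obj i ⊗[K] (Q t).obj j) := fun i j => (f i j).hom
  have hbij' : ∀ i j, N ≤ i → N ≤ j → Function.Bijective (g i j) := by
    intro i j hi hj
    have := (hf i j hi hj).1
    exact (CategoryTheory.ConcreteCategory.isIso_iff_bijective (f i j)).mp this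
  have hbij : Function.Bijective (g n n) := hbij' n n hnN hnN
  have hbijx : Function.Injective (g (n + 1) n) := (hbij' (n + 1) n (by omega) hnN).1
  have hbijy : Function.Injective (g n (n + 1)) := (hbij' n (n + 1) hnN (by omega)).1
  have hx : ∀ (k : Fin 2) (m : FFobj K n n) (t : Fin s),
      g (n + 1) n (FFmul (ev K (X (Sum.inl k))) n n (n + 1) n (by omega) m) t =
        LinearMap.rTensor ((Q t).obj n) ((P t).x k n).hom (g n n m t) := fun k m t =>
    congrFun (LinearMap.congr_fun (congrArg ModuleCat.Hom.hom ((hf n n hnN hnN).2.1 k)) m) t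
  have hy : ∀ (k : Fin 2) (m : FFobj K n n) (t : Fin s),
      g n (n + 1) (FFmul (ev K (X (Sum.inr k))) n n n (n + 1) (by omega) m) t =
        LinearMap.lTensor ((P t).obj n) ((Q t).x k n).hom (g n n m t) := fun k m t =>
    congrFun (LinearMap.congr_fun (congrArg ModuleCat.Hom.hom ((hf n n hnN hnN).2.2 k)) m) t
  -- dimensions
  have hdim : ∑ t, Module.finrank K ((P t).obj n) * Module.finrank K ((Q t).obj n) = 2 := by
    have h1 := LinearEquiv.finrank_eq (LinearEquiv.ofBijective (g n n) hbij)
    rw [finrank_FFobj hn0 hn0, Module.finrank_pi_fintype] at h1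
    simp only [Module.finrank_tensorProduct] at h1
    exact h1.symm
  have hdim' : ∀ t, Module.finrank K ((P t).obj n) ≤ 1 ∨ Module.finrank K ((Q t).obj n) ≤ 1 := by
    intro t
    have h1 : Module.finrank K ((P t).obj n) * Module.finrank K ((Q t).obj n) ≤ 2 := by
      rw [← hdim]
      exact Finset.single_le_sum
        (f := fun t => Module.finrank K ((P t).obj n) * Module.finrank K ((Q t).obj n))
        (fun _ _ => Nat.zero_le _) (Finset.mem_univ t)
    by_contra h
    push Not at h
    nlinarith [h.1, h.2]
  -- the elements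
  set one : FFobj K n n := ⟨1, FFobj_top hn0 hn0 _⟩ with hone
  set eps : FFobj K n n := ⟨DualNumber.eps, FFobj_top hn0 hn0 _⟩ with heps
  have e1 : FFmul (ev K (X (Sum.inl 1))) n n (n + 1) n (by omega) one =
      FFmul (ev K (X (Sum.inl 0))) n n (n + 1) n (by omega) eps := by
    apply Subtype.ext
    rw [FFmul_coe, FFmul_coe, ev_x0, ev_x1]
    simp [hone, heps]
  have e2 : FFmul (ev K (X (Sum.inl 1))) n n (n + 1) n (by omega) eps = 0 := by
    apply Subtype.ext
    rw [FFmul_coe, ev_x1]
    exact DualNumber.eps_mul_eps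
  have e3 : FFmul (ev K (X (Sum.inr 1))) n n n (n + 1) (by omega) one =
      FFmul (ev K (X (Sum.inr 0))) n n n (n + 1) (by omega) eps := by
    apply Subtype.ext
    rw [FFmul_coe, FFmul_coe, ev_y0, ev_y1]
    simp [hone, heps]
  have e4 : FFmul (ev K (X (Sum.inr 1))) n n n (n + 1) (by omega) eps = 0 := by
    apply Subtype.ext
    rw [FFmul_coe, ev_y1]
    exact DualNumber.eps_mul_eps
  have hu : g n n eps = 0 := by
    funext t
    show g n n eps t = 0
    rcases hdim' t with ht | ht
    · refine core_left ((P t).x 0 n).hom ((P t).x 1 n).hom _ (g n n one t) ht ?_ ?_ ?_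
      · intro w hw
        obtain ⟨z, hz⟩ := hbij.2 (Pi.single t w)
        have h1 : g (n + 1) n (FFmul (ev K (X (Sum.inl 0))) n n (n + 1) n (by omega) z) = 0 := by
          funext t'
          rw [hx, hz]
          by_cases htt : t' = t
          · subst htt
            rw [Pi.single_eq_same, hw]
            rfl
          · rw [Pi.single_eq_of_ne htt, map_zero]
            rfl
        have h2 := hbijx (h1.trans (map_zero _).symm)
        have h3 : z = 0 := by
          have := congrArg Subtype.val h2
          rw [FFmul_coe, ev_x0, one_mul] at this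
          exact Subtype.ext this
        rw [h3, map_zero] at hz
        have := congrFun hz t
        rw [Pi.single_eq_same] at this
        exact this.symm
      · rw [← hx, ← hx, e1]
      · rw [← hx, e2, map_zero]
        rfl
    · refine core_right ((Q t).x 0 n).hom ((Q t).x 1 n).hom _ (g n n one t) ht ?_ ?_ ?_
      · intro w hw
        obtain ⟨z, hz⟩ := hbij.2 (Pi.single t w)
        have h1 : g n (n + 1) (FFmul (ev K (X (Sum.inr 0))) n n n (n + 1) (by omega) z) = 0 := by
          funext t'
          rw [hy, hz]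
          by_cases htt : t' = t
          · subst htt
            rw [Pi.single_eq_same, hw]
            rfl
          · rw [Pi.single_eq_of_ne htt, map_zero]
            rfl
        have h2 := hbijy (h1.trans (map_zero _).symm)
        have h3 : z = 0 := by
          have := congrArg Subtype.val h2
          rw [FFmul_coe, ev_y0, one_mul] at this
          exact Subtype.ext this
        rw [h3, map_zero] at hz
        have := congrFun hz t
        rw [Pi.single_eq_same] at this
        exact this.symm
      · rw [← hy, ← hy, e3]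
      · rw [← hy, e4, map_zero]
        rfl
  have h5 : eps = 0 := hbij.1 (hu.trans (map_zero _).symm)
  have h6 : (DualNumber.eps : DualNumber K) = 0 := congrArg Subtype.val h5
  have h7 := congrArg TrivSqZeroExt.snd h6
  simp at h7

end Pool.Agent.MP_df5a96_ag.General
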