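import Pool.Agent.MP_df5a96_ag.General.Exterior

/-!
# The Tate resolution of a length two sheaf on `ℙ¹ × ℙ¹`
-/

open MvPolynomial

namespace Pool.Agent.MP_df5a96_ag.General

universe u

variable {K : Type u} [Field K] {V : Type u} [AddCommGroup V] [Module K V]
  (b : Module.Basis (Idx 1 1) K V)

/-- The matrix of `e₀ + ε e₁` in the basis `1, ε`. -/
noncomputable def uu : Fin 2 → Fin 2 → ExteriorAlgebra K V
  | 0, 0 => vec b (Sum.inl 0)
  | 0, 1 => 0
  | 1, 0 => vec b (Sum.inl 1)
  | 1, 1 => vec b (Sum.inl 0)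

/-- The matrix of `f₀ + ε f₁` in the basis `1, ε`. -/
noncomputable def vv : Fin 2 → Fin 2 → ExteriorAlgebra K V
  | 0, 0 => vec b (Sum.inr 0)
  | 0, 1 => 0
  | 1, 0 => vec b (Sum.inr 1)
  | 1, 1 => vec b (Sum.inr 0)

theorem uu_mem (l k : Fin 2) : uu b l k ∈ V₁ K (vec b) := by
  fin_cases l <;> fin_cases k
  · exact vec_inl_mem 0
  · exact zero_mem _
  · exact vec_inl_mem 1
  · exact vec_inl_mem 0

theorem vv_mem (l k : Fin 2) : vv b l k ∈ V₂ K (vec b) := by
  fin_cases l <;> fin_cases k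
  · exact vec_inr_mem 0
  · exact zero_mem _
  · exact vec_inr_mem 1
  · exact vec_inr_mem 0

/-- The differential, as a function of the indices. -/
noncomputable def DD (j i : ℤ × Fin 2) : ExteriorAlgebra K V :=
  if j.1 + 1 = i.1 then uu b j.2 i.2 else if j.1 = i.1 then vv b j.2 i.2 else 0

theorem uu_uu (m n : Fin 2) : uu b m 0 * uu b 0 n + uu b m 1 * uu b 1 n = 0 := by
  have h := vec_mul_comm (b := b) (Sum.inl 1) (Sum.inl 0)
  fin_cases m <;> fin_cases n <;> simp [uu, vec_mul_self, h]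

theorem vv_vv (m n : Fin 2) : vv b m 0 * vv b 0 n + vv b m 1 * vv b 1 n = 0 := by
  have h := vec_mul_comm (b := b) (Sum.inr 1) (Sum.inr 0)
  fin_cases m <;> fin_cases n <;> simp [vv, vec_mul_self, h]

theorem uu_vv (m n : Fin 2) : uu b m 0 * vv b 0 n + uu b m 1 * vv b 1 n +
    (vv b m 0 * uu b 0 n + vv b m 1 * uu b 1 n) = 0 := by
  have h00 := vec_mul_comm (b := b) (Sum.inr 0) (Sum.inl 0)
  have h01 := vec_mul_comm (b := b) (Sum.inr 0) (Sum.inl 1)
  have h10 := vec_mul_comm (b := b) (Sum.inr 1) (Sum.inl 0)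
  fin_cases m <;> fin_cases n <;> simp only [uu, vv, Fin.isValue,
    zero_mul, mul_zero, add_zero, zero_add, h00, h01, h10] <;> abel

theorem DD_comp (k i : ℤ × Fin 2) : ∑ᶠ j : ℤ × Fin 2, DD b k j * DD b j i = 0 := by
  classical
  have hsub : Function.support (fun j : ℤ × Fin 2 => DD b k j * DD b j i) ⊆
      (({k.1 + 1, k.1} ×ˢ Finset.univ : Finset (ℤ × Fin 2)) : Set (ℤ × Fin 2)) := by
    intro j hj
    rw [Function.mem_support] at hj
    simp only [Finset.coe_product, Finset.coe_insert, Finset.coe_singleton, Finset.coe_univ,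
      Set.mem_prod, Set.mem_insert_iff, Set.mem_singleton_iff, Set.mem_univ, and_true]
    by_contra hne
    push Not at hne
    apply hj
    have : DD b k j = 0 := by
      unfold DD
      rw [if_neg (fun h => hne.1 h.symm), if_neg (fun h => hne.2 h.symm)]
    rw [this, zero_mul]
  rw [finsum_eq_sum_of_support_subset _ hsub, Finset.sum_product, Finset.sum_pair (by omega),
    Fin.sum_univ_two, Fin.sum_univ_two]
  unfold DD
  have hk : ¬ (k.1 + 1 = k.1) := by omega
  simp only [if_true, hk, if_false]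
  by_cases h1 : k.1 + 1 + 1 = i.1
  · rw [if_pos h1, if_pos h1, if_neg (show ¬ (k.1 + 1 = i.1) by omega),
      if_neg (show ¬ (k.1 = i.1) by omega), if_neg (show ¬ (k.1 + 1 = i.1) by omega),
      if_neg (show ¬ (k.1 = i.1) by omega), mul_zero, mul_zero, add_zero, add_zero, uu_uu]
  · by_cases h2 : k.1 + 1 = i.1
    · rw [if_neg h1, if_pos h2, if_neg h1, if_pos h2, if_pos h2, if_pos h2]
      exact uu_vv b _ _
    · by_cases h3 : k.1 = i.1
      · rw [if_neg h1, if_neg h2, if_neg h1, if_neg h2, if_neg h2, if_pos h3, if_neg h2, if_pos h3,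
          mul_zero, mul_zero, add_zero, zero_add, vv_vv]
      · rw [if_neg h1, if_neg h2, if_neg h1, if_neg h2, if_neg h2, if_neg h3, if_neg h2, if_neg h3]
        simp

/-- The Tate resolution. -/
noncomputable def TT : FreeComplex K (vec b) where
  I _ := ℤ × Fin 2
  deg d i := (i.1, -d - i.1)
  locallyFinite d a := by
    refine Set.Finite.subset (Finset.finite_toSet ({a.1} ×ˢ Finset.univ : Finset (ℤ × Fin 2))) ?_
    intro i hi
    have : i.1 = a.1 := congrArg Prod.fst hi
    exact Finset.mem_coe.mpr (Finset.mem_product.mpr ⟨Finset.mem_singleton.mpr this,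
      Finset.mem_univ _⟩)
  D _ j i := DD b j i
  D_mem d j i := by
    unfold DD
    by_cases h1 : j.1 + 1 = i.1
    · rw [if_pos h1]
      have : ((j.1, -(d + 1) - j.1) - (i.1, -d - i.1) : ℤ × ℤ) = (-1, 0) := by
        ext
        · show j.1 - i.1 = -1
          omega
        · show -(d + 1) - j.1 - (-d - i.1) = 0
          omega
      rw [this]
      unfold extPiece extComp
      simpa using uu_mem b j.2 i.2
    · rw [if_neg h1]
      by_cases h2 : j.1 = i.1
      · rw [if_pos h2]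
        have : ((j.1, -(d + 1) - j.1) - (i.1, -d - i.1) : ℤ × ℤ) = (0, -1) := by
          ext
          · show j.1 - i.1 = 0
            omega
          · show -(d + 1) - j.1 - (-d - i.1) = -1
            omega
        rw [this]
        unfold extPiece extComp
        simpa using vv_mem b j.2 i.2
      · rw [if_neg h2]
        exact zero_mem _
  D_comp _ k i := DD_comp b k i

theorem TT_isMinimal : (TT b).IsMinimal := by
  intro d j i h
  exfalso
  change ((j.1, -(d + 1) - j.1) : ℤ × ℤ) = (i.1, -d - i.1) at h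
  obtain ⟨h1, h2⟩ := Prod.mk.inj h
  omega

theorem TT_double : (TT b).HasDoubleComplexStructure := by
  refine ⟨fun d i => (-i.1, d + i.1), fun d i => by ring, fun d j i => ?_⟩
  show ((-j.1, d + 1 + j.1) = ((-i.1, d + i.1) : ℤ × ℤ) + (1, 0) ∧ DD b j i ∈ E₁ K (vec b)) ∨
    ((-j.1, d + 1 + j.1) = ((-i.1, d + i.1) : ℤ × ℤ) + (0, 1) ∧ DD b j i ∈ E₂ K (vec b)) ∨
      DD b j i = 0
  unfold DD
  by_cases h1 : j.1 + 1 = i.1
  · left
    rw [if_pos h1]
    refine ⟨?_, Algebra.subset_adjoin (uu_mem b _ _)⟩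
    ext
    · show -j.1 = -i.1 + 1
      omega
    · show d + 1 + j.1 = d + i.1 + 0
      omega
  · rw [if_neg h1]
    right
    by_cases h2 : j.1 = i.1
    · left
      rw [if_pos h2]
      refine ⟨?_, Algebra.subset_adjoin (vv_mem b _ _)⟩
      ext
      · show -j.1 = -i.1 + 0
        omega
      · show d + 1 + j.1 = d + i.1 + 1
        omega
    · right
      rw [if_neg h2]

/-! ### The differential on elements -/

section diff

variable {b} {N : Type u} [AddCommGroup N] [Module K N]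

/-- The differential of `TT`, written out. -/
theorem diff_apply (d : ℤ) (m : (ℤ × Fin 2) →₀ (ExteriorAlgebra K V →ₗ[K] N)) (j : ℤ × Fin 2) :
    (TT b).diff d m j =
      (act (uu b j.2 0) (m (j.1 + 1, 0)) + act (uu b j.2 1) (m (j.1 + 1, 1))) +
      (act (vv b j.2 0) (m (j.1, 0)) + act (vv b j.2 1) (m (j.1, 1))) := by
  classical
  show m.sum (fun i φ => act (DD b j i) φ) = _
  have h1 : m.sum (fun i φ => act (DD b j i) φ) =
      ∑ i ∈ m.support ∪ ({j.1 + 1, j.1} ×ˢ Finset.univ), act (DD b j i) (m i) := by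
    rw [Finsupp.sum]
    refine Finset.sum_subset Finset.subset_union_left ?_
    intro i _ hi
    rw [Finsupp.notMem_support_iff.mp hi, map_zero]
  have h2 : ∑ i ∈ m.support ∪ ({j.1 + 1, j.1} ×ˢ Finset.univ), act (DD b j i) (m i) =
      ∑ i ∈ (({j.1 + 1, j.1} : Finset ℤ) ×ˢ (Finset.univ : Finset (Fin 2))),
        act (DD b j i) (m i) := by
    symm
    refine Finset.sum_subset Finset.subset_union_right ?_
    intro i _ hi
    have : DD b j i = 0 := by
      simp only [Finset.mem_product, Finset.mem_insert, Finset.mem_singleton, Finset.mem_univ,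
        and_true, not_or] at hi
      unfold DD
      rw [if_neg (fun h => hi.1 h.symm), if_neg (fun h => hi.2 h.symm)]
    rw [this, act_zero]
  rw [h1, h2, Finset.sum_product, Finset.sum_pair (by omega), Fin.sum_univ_two, Fin.sum_univ_two]
  unfold DD
  have hj : ¬ (j.1 + 1 = j.1) := by omega
  simp only [if_true, hj, if_false]

end diff

/-! ### Exactness -/

section exact

variable {b}

/-- the contraction against the matrix `uu` -/
theorem uu_hop (l k : Fin 2) (φ : ExteriorAlgebra K V →ₗ[K] K) :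
    act (uu b l k) (hop (b.coord (Sum.inl 0)) φ) =
      (if l = k then φ else 0) - hop (b.coord (Sum.inl 0)) (act (uu b l k) φ) := by
  fin_cases l <;> fin_cases k <;> simp [uu, act_vec_hop]

theorem vv_hop (l k : Fin 2) (φ : ExteriorAlgebra K V →ₗ[K] K) :
    act (vv b l k) (hop (b.coord (Sum.inl 0)) φ) =
      - hop (b.coord (Sum.inl 0)) (act (vv b l k) φ) := by
  fin_cases l <;> fin_cases k <;> simp [vv, act_vec_hop]

theorem uu_hop' (l k : Fin 2) (φ : ExteriorAlgebra K V →ₗ[K] K) :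
    act (uu b l k) (hop (b.coord (Sum.inr 0)) φ) =
      - hop (b.coord (Sum.inr 0)) (act (uu b l k) φ) := by
  fin_cases l <;> fin_cases k <;> simp [uu, act_vec_hop]

theorem vv_hop' (l k : Fin 2) (φ : ExteriorAlgebra K V →ₗ[K] K) :
    act (vv b l k) (hop (b.coord (Sum.inr 0)) φ) =
      (if l = k then φ else 0) - hop (b.coord (Sum.inr 0)) (act (vv b l k) φ) := by
  fin_cases l <;> fin_cases k <;> simp [vv, act_vec_hop]

/-- the shift of the index by one -/
def shiftEquiv : (ℤ × Fin 2) ≃ (ℤ × Fin 2) where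
  toFun i := (i.1 + 1, i.2)
  invFun i := (i.1 - 1, i.2)
  left_inv i := by simp
  right_inv i := by simp

variable (b) in
/-- The first homotopy. -/
noncomputable def homo (m : (ℤ × Fin 2) →₀ (ExteriorAlgebra K V →ₗ[K] K)) :
    (ℤ × Fin 2) →₀ (ExteriorAlgebra K V →ₗ[K] K) :=
  (m.mapRange (hop (b.coord (Sum.inl 0))) (map_zero _)).mapDomain shiftEquiv

theorem homo_apply (m : (ℤ × Fin 2) →₀ (ExteriorAlgebra K V →ₗ[K] K)) (i : ℤ × Fin 2) :
    homo b m i = hop (b.coord (Sum.inl 0)) (m (i.1 - 1, i.2)) := by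
  have : i = shiftEquiv (i.1 - 1, i.2) := by simp [shiftEquiv]
  unfold homo
  conv_lhs => rw [this]
  rw [Finsupp.mapDomain_apply shiftEquiv.injective, Finsupp.mapRange_apply]

variable (b) in
/-- The second homotopy. -/
noncomputable def homo' (m : (ℤ × Fin 2) →₀ (ExteriorAlgebra K V →ₗ[K] K)) :
    (ℤ × Fin 2) →₀ (ExteriorAlgebra K V →ₗ[K] K) :=
  m.mapRange (hop (b.coord (Sum.inr 0))) (map_zero _)

theorem homo'_apply (m : (ℤ × Fin 2) →₀ (ExteriorAlgebra K V →ₗ[K] K)) (i : ℤ × Fin 2) :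
    homo' b m i = hop (b.coord (Sum.inr 0)) (m i) := by
  unfold homo'
  rw [Finsupp.mapRange_apply]

theorem diff_homo (d : ℤ) (m : (ℤ × Fin 2) →₀ (ExteriorAlgebra K V →ₗ[K] K)) (i : ℤ × Fin 2) :
    (TT b).diff d (homo b m) i =
      m i - hop (b.coord (Sum.inl 0)) ((TT b).diff (d + 1) m (i.1 - 1, i.2)) := by
  rw [diff_apply, diff_apply]
  simp only [homo_apply, uu_hop, vv_hop, sub_add_cancel, add_sub_cancel_right, map_add]
  rcases i with ⟨p, l⟩
  fin_cases l <;> simp <;> abel

theorem strand_all (A : ℤ × ℤ → Prop)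
    (hA : ∀ (d : ℤ) (i : ℤ × Fin 2), A (i.1, -(d + 1 + 1) - i.1) ↔
      A (i.1 + 1, -(d + 1) - (i.1 + 1))) : (TT b).StrandExact A := by
  intro d m hm h
  change (ℤ × Fin 2) →₀ (ExteriorAlgebra K V →ₗ[K] K) at m
  change ∀ i : ℤ × Fin 2, ¬ A (i.1, -(d + 1) - i.1) → m i = 0 at hm
  change ∀ k : ℤ × Fin 2, A (k.1, -(d + 1 + 1) - k.1) → (TT b).diff (d + 1) m k = 0 at h
  show ∃ m' : (ℤ × Fin 2) →₀ (ExteriorAlgebra K V →ₗ[K] K),
    (∀ i : ℤ × Fin 2, ¬ A (i.1, -d - i.1) → m' i = 0) ∧
      ∀ i : ℤ × Fin 2, A (i.1, -(d + 1) - i.1) → (TT b).diff d m' i = m i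
  refine ⟨homo b m, ?_, ?_⟩
  · intro i hi
    rw [homo_apply]
    have : m (i.1 - 1, i.2) = 0 := by
      apply hm
      intro h2
      apply hi
      have := (hA (d - 1) (i.1 - 1, i.2)).mp (by
        show A (i.1 - 1, -(d - 1 + 1 + 1) - (i.1 - 1))
        have e : -(d - 1 + 1 + 1) - (i.1 - 1) = -(d + 1) - (i.1 - 1) := by ring
        rw [e]
        exact h2)
      have e1 : ((i.1 - 1, i.2) : ℤ × Fin 2).1 + 1 = i.1 := by simp
      rw [e1] at this
      have e2 : -(d - 1 + 1) - i.1 = -d - i.1 := by ring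
      rw [e2] at this
      exact this
    rw [this, map_zero]
  · intro i hi
    rw [diff_homo]
    have h3 : (TT b).diff (d + 1) m (i.1 - 1, i.2) = 0 := by
      apply h
      show A (i.1 - 1, -(d + 1 + 1) - (i.1 - 1))
      apply (hA d (i.1 - 1, i.2)).mpr
      have e1 : ((i.1 - 1, i.2) : ℤ × Fin 2).1 + 1 = i.1 := by simp
      rw [e1]
      exact hi
    rw [h3, map_zero, sub_zero]

theorem TT_isTate : (TT b).IsTate := by
  refine ⟨strand_all _ (fun d i => Iff.rfl), ?_, ?_⟩
  · intro c d m hm h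
    change (ℤ × Fin 2) →₀ (ExteriorAlgebra K V →ₗ[K] K) at m
    change ∀ i : ℤ × Fin 2, ¬ (i.1 = c) → m i = 0 at hm
    change ∀ k : ℤ × Fin 2, k.1 = c → (TT b).diff (d + 1) m k = 0 at h
    show ∃ m' : (ℤ × Fin 2) →₀ (ExteriorAlgebra K V →ₗ[K] K),
      (∀ i : ℤ × Fin 2, ¬ (i.1 = c) → m' i = 0) ∧
        ∀ i : ℤ × Fin 2, i.1 = c → (TT b).diff d m' i = m i
    refine ⟨homo' b m, ?_, ?_⟩
    · intro i hi
      rw [homo'_apply]
      have : m i = 0 := hm i hi
      rw [this, map_zero]
    · intro i hi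
      have hi' : i.1 = c := hi
      have hz : ∀ k, m (i.1 + 1, k) = 0 := by
        intro k
        apply hm
        show ¬ (i.1 + 1 = c)
        omega
      have h3 := h i hi
      rw [diff_apply, hz, hz] at h3
      rw [diff_apply]
      simp only [homo'_apply, hz, map_zero, add_zero, zero_add] at h3 ⊢
      rw [vv_hop', vv_hop']
      have h4 : hop (b.coord (Sum.inr 0)) (act (vv b i.2 0) (m (i.1, 0))) +
          hop (b.coord (Sum.inr 0)) (act (vv b i.2 1) (m (i.1, 1))) = 0 := by
        rw [← map_add, h3, map_zero]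
      have h5 : (if i.2 = 0 then m (i.1, 0) else 0) + (if i.2 = 1 then m (i.1, 1) else 0) =
          m i := by
        rcases i with ⟨p, l⟩
        fin_cases l <;> simp
      rw [← h5, sub_add_sub_comm, h4, sub_zero]
  · intro c
    apply strand_all
    intro d i
    show -(d + 1 + 1) - i.1 = c ↔ -(d + 1) - (i.1 + 1) = c
    constructor <;> intro h <;> rw [← h] <;> ring

end exact

end Pool.Agent.MP_df5a96_ag.General
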